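import Pool.Agent.Lib.MP_9f2731_nt.CG.Bq.Spec

/-!
MP_9f2731_nt, CG/Bq, module BqA (helper29): the pointwise inequality for one modulus.
-/

namespace Pool.Agent.Lib.MP_9f2731_nt.CG.Bq

open Finset Pool.Agent.Lib.BV

open Pool.Agent.Lib.MP_9f2731_nt.QL Pool.Agent.Lib.MP_9f2731_nt.QL.Pw Pool.Agent.Lib.MP_9f2731_nt.CG

private theorem bqa_del (c : ℕ → Prop) (f g h : ℕ → ℂ) (N D l : ℕ) :
    del c (fun n => f n - g n + h n) N D l = del c f N D l - del c g N D l + del c h N D l := by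
  unfold del
  rw [← mul_sub, ← mul_add, ← Finset.sum_sub_distrib, ← Finset.sum_add_distrib]
  congr 1
  refine Finset.sum_congr rfl fun χ _ => ?_
  rw [← mul_sub, ← mul_add]
  congr 1
  unfold cs
  rw [← Finset.sum_sub_distrib, ← Finset.sum_add_distrib]
  refine Finset.sum_congr rfl fun n _ => ?_
  ring

private theorem bqa_cls {x : ℝ} (hx : 0 ≤ x) (z D l : ℕ) :
    cls (fun n => (RY z x n : ℂ)) (4 * ⌊x⌋₊) D l =
      ((∑ n ∈ (Ioc 0 ⌊x⌋₊).filter (fun n => n ≡ l [MOD D]), rr z n : ℝ) : ℂ) := by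
  unfold cls
  push_cast
  have h1 : (Ioc 0 ⌊x⌋₊).filter (fun n => n ≡ l [MOD D]) =
      ((Icc 1 (4 * ⌊x⌋₊)).filter (fun n => n ≡ l [MOD D])).filter (fun n : ℕ => (n : ℝ) ≤ x) := by
    ext n
    simp only [Finset.mem_filter, Finset.mem_Icc, Finset.mem_Ioc]
    rw [← Nat.le_floor_iff hx]
    constructor
    · rintro ⟨⟨h2, h3⟩, h4⟩
      exact ⟨⟨⟨by omega, by omega⟩, h4⟩, h3⟩
    · rintro ⟨⟨⟨h2, _⟩, h4⟩, h3⟩
      exact ⟨⟨by omega, h3⟩, h4⟩
  rw [h1, Finset.sum_filter _ (fun n : ℕ => (rr z n : ℂ))]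
  refine Finset.sum_congr rfl fun n _ => ?_
  unfold RY
  split_ifs
  · rfl
  · rw [Complex.ofReal_zero]

private theorem bqa_arith {x η z' lz φ q C1 C2 Zb Z16 e sx S1 E2 G : ℝ} (hx : 4 ≤ x) (hη : 0 < η)
    (hz : 2 ≤ z') (hlz : 0 < lz) (hφ : 1 ≤ φ) (hq : 0 ≤ q) (hC1 : 0 < C1) (hC2 : 0 < C2)
    (he : 0 < e) (hsx : 0 ≤ sx) (hz1 : z' ≤ Zb) (hZ : Z16 ≤ Zb) (hZ0 : 0 ≤ Z16)
    (h1 : S1 ≤ (1 + q) * (C1 * (x / φ * (e / lz)) + Zb))
    (h2 : E2 ≤ (z' + 1) + (x / (z' * φ) + sx) + C2 * ((4 * η * x + 1) / (φ * lz)) + Z16)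
    (h3 : G ≤ (z' / 1 + 1) + (x / (z' * 1) + sx) + C2 * ((4 * η * x + 1) / (1 * lz)) + Z16) :
    S1 + (E2 + (1 + q) * (G / φ)) ≤
      (2 + q) * (sx + 4 * Zb + x / φ * (1 / z' + max C1 C2 * ((5 * η + 1 / x + e) / lz))) := by
  have hφ0 : 0 < φ := by linarith
  have hx0 : 0 < x := by linarith
  have hz0 : 0 < z' := by linarith
  -- common bound
  set T := (z' + 1) + (x / (z' * φ) + sx) + C2 * ((4 * η * x + 1) / (φ * lz)) + Z16 with hT
  have h4 : G / φ ≤ T := by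
    have h5 : G / φ ≤ ((z' / 1 + 1) + (x / (z' * 1) + sx) + C2 * ((4 * η * x + 1) / (1 * lz)) + Z16) / φ :=
      div_le_div_of_nonneg_right h3 hφ0.le
    refine h5.trans ?_
    have e1 : ((z' / 1 + 1) + (x / (z' * 1) + sx) + C2 * ((4 * η * x + 1) / (1 * lz)) + Z16) / φ =
        (z' + 1) / φ + (x / (z' * φ) + sx / φ) + C2 * ((4 * η * x + 1) / (φ * lz)) + Z16 / φ := by
      field_simp
    rw [e1, hT]
    have e2 : (z' + 1) / φ ≤ z' + 1 := div_le_self (by linarith) hφ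
    have e3 : sx / φ ≤ sx := div_le_self hsx hφ
    have e4 : Z16 / φ ≤ Z16 := div_le_self hZ0 hφ
    linarith
  have hC : C1 ≤ max C1 C2 := le_max_left _ _
  have hC' : C2 ≤ max C1 C2 := le_max_right _ _
  set C := max C1 C2 with hCdef
  have hC0 : 0 < C := lt_of_lt_of_le hC1 hC
  have h6 : T ≤ 3 * Zb + sx + x / φ * (1 / z' + C * ((4 * η + 1 / x) / lz)) := by
    rw [hT]
    have e1 : C2 * ((4 * η * x + 1) / (φ * lz)) ≤ C * ((4 * η * x + 1) / (φ * lz)) :=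
      mul_le_mul_of_nonneg_right hC' (by positivity)
    have e2 : C * ((4 * η * x + 1) / (φ * lz)) = x / φ * (C * ((4 * η + 1 / x) / lz)) := by
      field_simp
    have e3 : x / (z' * φ) = x / φ * (1 / z') := by
      field_simp
    rw [mul_add, ← e3, ← e2]
    linarith
  have h7 : C1 * (x / φ * (e / lz)) + Zb ≤ x / φ * (C * (e / lz)) + Zb := by
    have e1 : C1 * (x / φ * (e / lz)) ≤ C * (x / φ * (e / lz)) :=
      mul_le_mul_of_nonneg_right hC (by positivity)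
    have e2 : C * (x / φ * (e / lz)) = x / φ * (C * (e / lz)) := by ring
    linarith
  have h8 : 0 ≤ x / φ * (C * (e / lz)) + Zb := by
    have : 0 ≤ x / φ * (C * (e / lz)) := by positivity
    linarith
  have h9 : S1 ≤ (2 + q) * (x / φ * (C * (e / lz)) + Zb) := by
    refine h1.trans ?_
    calc (1 + q) * (C1 * (x / φ * (e / lz)) + Zb) ≤ (1 + q) * (x / φ * (C * (e / lz)) + Zb) :=
          mul_le_mul_of_nonneg_left h7 (by linarith)
      _ ≤ (2 + q) * (x / φ * (C * (e / lz)) + Zb) :=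
          mul_le_mul_of_nonneg_right (by linarith) h8
  have h10 : E2 + (1 + q) * (G / φ) ≤
      (2 + q) * (3 * Zb + sx + x / φ * (1 / z' + C * ((4 * η + 1 / x) / lz))) := by
    calc E2 + (1 + q) * (G / φ) ≤ T + (1 + q) * T :=
          add_le_add h2 (mul_le_mul_of_nonneg_left h4 (by linarith))
      _ = (2 + q) * T := by ring
      _ ≤ _ := mul_le_mul_of_nonneg_left h6 (by linarith)
  have h11 : x / φ * (C * (e / lz)) + x / φ * (1 / z' + C * ((4 * η + 1 / x) / lz)) ≤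
      x / φ * (1 / z' + C * ((5 * η + 1 / x + e) / lz)) := by
    rw [← mul_add]
    refine mul_le_mul_of_nonneg_left ?_ (by positivity)
    have e1 : C * (e / lz) + (1 / z' + C * ((4 * η + 1 / x) / lz)) =
        1 / z' + C * ((4 * η + 1 / x + e) / lz) := by
      field_simp
      ring
    rw [e1]
    have e2 : (4 * η + 1 / x + e) / lz ≤ (5 * η + 1 / x + e) / lz :=
      div_le_div_of_nonneg_right (by linarith) hlz.le
    have e3 := mul_le_mul_of_nonneg_left e2 hC0.le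
    linarith
  calc S1 + (E2 + (1 + q) * (G / φ)) ≤ (2 + q) * (x / φ * (C * (e / lz)) + Zb) +
        (2 + q) * (3 * Zb + sx + x / φ * (1 / z' + C * ((4 * η + 1 / x) / lz))) := add_le_add h9 h10
    _ = (2 + q) * (sx + 4 * Zb + (x / φ * (C * (e / lz)) +
        x / φ * (1 / z' + C * ((4 * η + 1 / x) / lz)))) := by ring
    _ ≤ _ := mul_le_mul_of_nonneg_left (by linarith) (by linarith)

theorem pBqA (hSpl : SplStmt) (hUni : UniStmt) (hSmg : SmgStmt) (hFl : FlStmt) (hGys : GysStmt) :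
    BqAStmt := by
  obtain ⟨C1, hC1, h1⟩ := hFl
  obtain ⟨C2, hC2, h2⟩ := hGys
  refine ⟨max C1 C2, lt_of_lt_of_le hC1 (le_max_left _ _), ?_⟩
  intro x η z b K J Q D l hx hη hη2 hz hb hJ hK hD hl hQ
  have hx0 : 0 ≤ x := by linarith
  have hφ : (1 : ℝ) ≤ (D.totient : ℝ) := by exact_mod_cast Nat.totient_pos.mpr hD
  have hφ0 : (0 : ℝ) < (D.totient : ℝ) := by linarith
  have hz2 : (2 : ℝ) ≤ z := by exact_mod_cast hz
  have hz0 : (0 : ℝ) < z := by linarith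
  have hlz : 0 < Real.log z := Real.log_pos (by linarith)
  have hs := hSpl (Px x) (4 * ⌊x⌋₊) D l Q hD hl hQ
  have e1 : cls (Px x) (4 * ⌊x⌋₊) D l - Mn x D =
      del (fun c => 1 < c ∧ c ≤ Q) (Px x) (4 * ⌊x⌋₊) D l +
        del (fun c => Q < c) (Px x) (4 * ⌊x⌋₊) D l := by
    rw [hs]
    unfold Mn
    ring
  have e2 : Px x = fun n => (RY z x n : ℂ) - (FY η z K J x n : ℂ) + (GY η z K J x n : ℂ) := by
    funext n
    unfold Px GY
    push_cast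
    ring
  have e3 : del (fun c => Q < c) (Px x) (4 * ⌊x⌋₊) D l =
      del (fun c => Q < c) (fun n => (RY z x n : ℂ)) (4 * ⌊x⌋₊) D l -
      del (fun c => Q < c) (fun n => (FY η z K J x n : ℂ)) (4 * ⌊x⌋₊) D l +
      del (fun c => Q < c) (fun n => (GY η z K J x n : ℂ)) (4 * ⌊x⌋₊) D l := by
    rw [e2, bqa_del]
  -- the rough numbers
  have hR : ‖del (fun c => Q < c) (fun n => (RY z x n : ℂ)) (4 * ⌊x⌋₊) D l‖ ≤
      (1 + (Q : ℝ) ^ 2) * (C1 * (x / (D.totient : ℝ) * (Real.exp (-(b : ℝ)) / Real.log z)) +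
        (z : ℝ) ^ (16 * b)) := by
    refine hUni _ _ _ _ _ _ hD hQ hl ?_
    intro l1 l2 hl1 hl2
    rw [bqa_cls hx0, bqa_cls hx0, ← Complex.ofReal_sub, Complex.norm_real, Real.norm_eq_abs]
    refine (h1 z b D l1 l2 0 ⌊x⌋₊ hz hb hD hl1 hl2 (Nat.zero_le _)).trans ?_
    have h3 : ((⌊x⌋₊ : ℕ) : ℝ) ≤ x := Nat.floor_le hx0
    have h4 : (((⌊x⌋₊ : ℕ) : ℝ) - ((0 : ℕ) : ℝ)) / (D.totient : ℝ) ≤ x / (D.totient : ℝ) := by
      rw [Nat.cast_zero, sub_zero]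
      exact div_le_div_of_nonneg_right h3 hφ0.le
    have h5 := mul_le_mul_of_nonneg_right h4
      (show 0 ≤ Real.exp (-(b : ℝ)) / Real.log z by positivity)
    have h6 := mul_le_mul_of_nonneg_left h5 hC1.le
    linarith
  -- the small error
  have hDφ : (D.totient : ℝ) ≤ D := by exact_mod_cast Nat.totient_le D
  have hD1 : (1 : ℝ) ≤ D := by exact_mod_cast hD
  have hE2 : ∑ n ∈ (Icc 1 (4 * ⌊x⌋₊)).filter (fun n => n ≡ l [MOD D]), ‖((GY η z K J x n : ℝ) : ℂ)‖ ≤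
      ((z : ℝ) + 1) + (x / (z * (D.totient : ℝ)) + Real.sqrt x) +
      C2 * ((4 * η * x + 1) / ((D.totient : ℝ) * Real.log z)) + (z : ℝ) ^ 16 := by
    have h3 := h2 η x z K J D l (4 * ⌊x⌋₊) hη hη2 hz (by linarith) hJ hK hD hl
    have h4 : ∑ n ∈ (Icc 1 (4 * ⌊x⌋₊)).filter (fun n => n ≡ l [MOD D]), ‖((GY η z K J x n : ℝ) : ℂ)‖ =
        ∑ n ∈ (Icc 1 (4 * ⌊x⌋₊)).filter (fun n => n ≡ l [MOD D]), |GY η z K J x n| :=
      Finset.sum_congr rfl fun n _ => by rw [Complex.norm_real, Real.norm_eq_abs]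
    rw [h4]
    refine h3.trans ?_
    have h5 : (z : ℝ) / D ≤ z := div_le_self hz0.le hD1
    have h6 : x / ((z : ℝ) * D) ≤ x / (z * (D.totient : ℝ)) :=
      div_le_div_of_nonneg_left hx0 (by positivity) (mul_le_mul_of_nonneg_left hDφ hz0.le)
    linarith
  have hG : ∑ n ∈ Icc 1 (4 * ⌊x⌋₊), ‖((GY η z K J x n : ℝ) : ℂ)‖ ≤
      ((z : ℝ) / 1 + 1) + (x / (z * 1) + Real.sqrt x) +
      C2 * ((4 * η * x + 1) / (1 * Real.log z)) + (z : ℝ) ^ 16 := by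
    have h3 := h2 η x z K J 1 0 (4 * ⌊x⌋₊) hη hη2 hz (by linarith) hJ hK le_rfl
      (Nat.coprime_one_right 0)
    have h4 : ∑ n ∈ Icc 1 (4 * ⌊x⌋₊), ‖((GY η z K J x n : ℝ) : ℂ)‖ =
        ∑ n ∈ (Icc 1 (4 * ⌊x⌋₊)).filter (fun n => n ≡ 0 [MOD 1]), |GY η z K J x n| := by
      rw [Finset.filter_true_of_mem (fun n _ => Nat.modEq_one)]
      exact Finset.sum_congr rfl fun n _ => by rw [Complex.norm_real, Real.norm_eq_abs]
    rw [h4]
    rw [Nat.totient_one, Nat.cast_one] at h3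
    exact h3
  have hGd := hSmg (fun n => ((GY η z K J x n : ℝ) : ℂ)) (4 * ⌊x⌋₊) D l Q _ _ hD hQ hl le_rfl le_rfl
  -- powers of z
  have hz1n : 1 ≤ z := by omega
  have p1 : (z : ℝ) ≤ (z : ℝ) ^ (16 * b) := by
    have h3 : (z : ℝ) ^ 1 ≤ (z : ℝ) ^ (16 * b) :=
      pow_le_pow_right₀ (by linarith) (by omega)
    rwa [pow_one] at h3
  have p2 : (z : ℝ) ^ 16 ≤ (z : ℝ) ^ (16 * b) :=
    pow_le_pow_right₀ (by linarith) (by omega)
  have key := bqa_arith (x := x) (η := η) (z' := (z : ℝ)) (lz := Real.log z) (φ := (D.totient : ℝ))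
    (q := (Q : ℝ) ^ 2) (C1 := C1) (C2 := C2) (Zb := (z : ℝ) ^ (16 * b)) (Z16 := (z : ℝ) ^ 16)
    (e := Real.exp (-(b : ℝ))) (sx := Real.sqrt x) hx hη hz2 hlz hφ (sq_nonneg _) hC1 hC2
    (Real.exp_pos _) (Real.sqrt_nonneg _) p1 p2 (by positivity) hR hE2 hG
  rw [e1, e3]
  have t1 := norm_add_le (del (fun c => 1 < c ∧ c ≤ Q) (Px x) (4 * ⌊x⌋₊) D l)
    (del (fun c => Q < c) (fun n => (RY z x n : ℂ)) (4 * ⌊x⌋₊) D l -
      del (fun c => Q < c) (fun n => (FY η z K J x n : ℂ)) (4 * ⌊x⌋₊) D l +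
      del (fun c => Q < c) (fun n => (GY η z K J x n : ℂ)) (4 * ⌊x⌋₊) D l)
  have t2 := norm_add_le
    (del (fun c => Q < c) (fun n => (RY z x n : ℂ)) (4 * ⌊x⌋₊) D l -
      del (fun c => Q < c) (fun n => (FY η z K J x n : ℂ)) (4 * ⌊x⌋₊) D l)
    (del (fun c => Q < c) (fun n => (GY η z K J x n : ℂ)) (4 * ⌊x⌋₊) D l)
  have t3 := norm_sub_le
    (del (fun c => Q < c) (fun n => (RY z x n : ℂ)) (4 * ⌊x⌋₊) D l)
    (del (fun c => Q < c) (fun n => (FY η z K J x n : ℂ)) (4 * ⌊x⌋₊) D l)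
  linarith

end Pool.Agent.Lib.MP_9f2731_nt.CG.Bq
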