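import Pool.Agent.Lib.MP_9f2731_nt.CG.Bq.Spec

/-!
MP_9f2731_nt, CG/Bq, module BqH (helper29): the characters of high conductor.
-/

namespace Pool.Agent.Lib.MP_9f2731_nt.CG.Bq

open Finset Pool.Agent.Lib.BV

open Pool.Agent.Lib.MP_9f2731_nt.QL Pool.Agent.Lib.MP_9f2731_nt.QL.Pw Pool.Agent.Lib.MP_9f2731_nt.CG

private theorem bqh_lim (C : ℝ) (hC : 0 < C) :
    ∃ u0 : ℝ, 6 ≤ u0 ∧ ∀ u : ℝ, u0 ≤ u → 1440 * C * u ^ 802 ≤ Real.exp u := by
  have h := Real.tendsto_pow_mul_exp_neg_atTop_nhds_zero 802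
  have h2 := (h.eventually (gt_mem_nhds (show (0 : ℝ) < 1 / (1440 * C) by positivity)))
  obtain ⟨u0, hu0⟩ := Filter.eventually_atTop.1 h2
  refine ⟨max 6 u0, le_max_left _ _, fun u hu => ?_⟩
  have h3 := (hu0 u ((le_max_right _ _).trans hu)).le
  rw [Real.exp_neg, ← div_eq_mul_inv, div_le_div_iff₀ (Real.exp_pos _) (by positivity)] at h3
  linarith

private theorem bqh_sq {u : ℝ} (hu : 6 ≤ u) : 36 ≤ u ^ 2 ∧ 4 * u ≤ u ^ 2 := by
  constructor <;> nlinarith

private theorem bqh_ee {e : ℝ} (h : 1 ≤ e) : 2 * e ≤ 4 * (e * e) := by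
  nlinarith

private theorem bqh_arith {C u x D z Q K E lD lz : ℝ} (hC : 0 < C) (hu : 6 ≤ u)
    (hCu : 1440 * C * u ^ 802 ≤ Real.exp u) (hx0 : 0 < x) (hx : x ≤ 2 * Real.exp u * Real.exp (u ^ 200))
    (hE : E = 4 * u ^ 2) (hK0 : 0 ≤ K) (hK : K ≤ 3 * u ^ 200) (hz0 : 0 < z)
    (hz : Real.exp (u ^ 100) / 2 ≤ z) (hlz : 1 ≤ lz) (hQ : Real.exp (u ^ 2) / 2 ≤ Q)
    (hD0 : 0 ≤ D) (hD : D ≤ Real.exp u * Real.exp (9 / 20 * u ^ 200)) (hlD0 : 0 ≤ lD)
    (hlD : 1 + lD ≤ 2 * u ^ 200) :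
    C * (1 + E) * (K * Real.sqrt x / lz) *
        ((1 + lD) ^ 2 * (Real.sqrt x / Q + Real.sqrt (x / z) * (1 + lD)) + D) ≤
      Real.exp (u ^ 200) * Real.exp (-(2 * u)) := by
  have hu0 : 0 < u := by linarith
  obtain ⟨hu36, hu4⟩ := bqh_sq hu
  set L := u ^ 200 with hLdef
  have hL1 : 1 ≤ L := one_le_pow₀ (by linarith)
  set r := Real.sqrt x with hr
  have hr0 : 0 ≤ r := Real.sqrt_nonneg x
  have hrr : r * r = x := Real.mul_self_sqrt hx0.le
  have hQ0 : 0 < Q := lt_of_lt_of_le (by positivity) hQ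
  have hu100 : 2 * u ^ 2 ≤ u ^ 100 := by
    have h1 : (2 : ℝ) ≤ u ^ 98 := by
      have h2 : u ≤ u ^ 98 := le_self_pow₀ (by linarith) (by norm_num)
      linarith
    calc 2 * u ^ 2 ≤ u ^ 98 * u ^ 2 := mul_le_mul_of_nonneg_right h1 (by positivity)
      _ = u ^ 100 := by ring
  -- the quotients
  have h1 : r / Q ≤ r * (2 * Real.exp (-(u ^ 2))) := by
    rw [div_eq_mul_inv]
    refine mul_le_mul_of_nonneg_left ?_ hr0
    rw [inv_eq_one_div]
    calc 1 / Q ≤ 1 / (Real.exp (u ^ 2) / 2) := one_div_le_one_div_of_le (by positivity) hQ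
      _ = 2 * Real.exp (-(u ^ 2)) := by
        rw [Real.exp_neg]
        field_simp
  have h2 : Real.sqrt (x / z) ≤ r * (2 * Real.exp (-(u ^ 2))) := by
    rw [div_eq_mul_inv, Real.sqrt_mul hx0.le]
    refine mul_le_mul_of_nonneg_left ?_ hr0
    rw [Real.sqrt_le_left (by positivity), inv_eq_one_div]
    calc 1 / z ≤ 1 / (Real.exp (u ^ 100) / 2) := one_div_le_one_div_of_le (by positivity) hz
      _ = 2 * Real.exp (-(u ^ 100)) := by
        rw [Real.exp_neg]
        field_simp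
      _ ≤ 4 * Real.exp (-(2 * u ^ 2)) := by
        have h3 : Real.exp (-(u ^ 100)) ≤ Real.exp (-(2 * u ^ 2)) := Real.exp_le_exp.2 (by linarith)
        have h4 := Real.exp_pos (-(2 * u ^ 2))
        linarith
      _ = (2 * Real.exp (-(u ^ 2))) ^ 2 := by
        rw [mul_pow, ← Real.exp_nat_mul]
        norm_num
  -- the bracket
  have h3 : (1 + lD) ^ 2 * (r / Q + Real.sqrt (x / z) * (1 + lD)) + D ≤
      24 * L ^ 3 * (r * Real.exp (-(u ^ 2))) + D := by
    have h4 : Real.sqrt (x / z) * (1 + lD) ≤ r * (2 * Real.exp (-(u ^ 2))) * (2 * L) :=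
      mul_le_mul h2 hlD (by linarith) (by positivity)
    have h5 : r / Q + Real.sqrt (x / z) * (1 + lD) ≤ 6 * L * (r * Real.exp (-(u ^ 2))) := by
      have h6 : r * Real.exp (-(u ^ 2)) ≤ L * (r * Real.exp (-(u ^ 2))) :=
        le_mul_of_one_le_left (by positivity) hL1
      calc r / Q + Real.sqrt (x / z) * (1 + lD) ≤
            r * (2 * Real.exp (-(u ^ 2))) + r * (2 * Real.exp (-(u ^ 2))) * (2 * L) := add_le_add h1 h4
        _ = 2 * (r * Real.exp (-(u ^ 2))) + 4 * L * (r * Real.exp (-(u ^ 2))) := by ring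
        _ ≤ _ := by linarith
    have h7 : (1 + lD) ^ 2 ≤ (2 * L) ^ 2 := pow_le_pow_left₀ (by linarith) hlD 2
    have h8 : 0 ≤ r / Q + Real.sqrt (x / z) * (1 + lD) := by positivity
    have h9 : (1 + lD) ^ 2 * (r / Q + Real.sqrt (x / z) * (1 + lD)) ≤
        (2 * L) ^ 2 * (6 * L * (r * Real.exp (-(u ^ 2)))) :=
      mul_le_mul h7 h5 h8 (by positivity)
    have e1 : (2 * L) ^ 2 * (6 * L * (r * Real.exp (-(u ^ 2)))) =
        24 * L ^ 3 * (r * Real.exp (-(u ^ 2))) := by ring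
    linarith
  have h4 : C * (1 + E) ≤ 5 * C * u ^ 2 := by
    have h5 : 1 + E ≤ 5 * u ^ 2 := by
      rw [hE]
      linarith
    calc C * (1 + E) ≤ C * (5 * u ^ 2) := mul_le_mul_of_nonneg_left h5 hC.le
      _ = _ := by ring
  have h5 : K * r / lz ≤ 3 * L * r := by
    calc K * r / lz ≤ K * r := div_le_self (by positivity) hlz
      _ ≤ _ := mul_le_mul_of_nonneg_right hK hr0
  have hE0 : 0 ≤ C * (1 + E) := by
    rw [hE]
    positivity
  have h6 : C * (1 + E) * (K * r / lz) ≤ 15 * C * u ^ 2 * L * r := by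
    calc C * (1 + E) * (K * r / lz) ≤ (5 * C * u ^ 2) * (3 * L * r) :=
          mul_le_mul h4 h5 (by positivity) (by positivity)
      _ = _ := by ring
  have h7 : 0 ≤ (1 + lD) ^ 2 * (r / Q + Real.sqrt (x / z) * (1 + lD)) + D := by positivity
  have h8 : C * (1 + E) * (K * r / lz) *
      ((1 + lD) ^ 2 * (r / Q + Real.sqrt (x / z) * (1 + lD)) + D) ≤
      (15 * C * u ^ 2 * L * r) * (24 * L ^ 3 * (r * Real.exp (-(u ^ 2))) + D) :=
    mul_le_mul h6 h3 h7 (by positivity)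
  have e2 : (15 * C * u ^ 2 * L * r) * (24 * L ^ 3 * (r * Real.exp (-(u ^ 2))) + D) =
      360 * C * (u ^ 2 * L ^ 4) * (r * r) * Real.exp (-(u ^ 2)) + 15 * C * (u ^ 2 * L) * r * D := by
    ring
  rw [e2, hrr] at h8
  -- the two parts
  have hL4 : u ^ 2 * L ^ 4 = u ^ 802 := by rw [hLdef]; ring
  have hL0 : u ^ 2 * L = u ^ 202 := by rw [hLdef]; ring
  rw [hL4, hL0] at h8
  have hp1 : 360 * C * u ^ 802 * x * Real.exp (-(u ^ 2)) ≤ Real.exp L * Real.exp (-(2 * u)) / 2 := by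
    calc 360 * C * u ^ 802 * x * Real.exp (-(u ^ 2)) ≤
          360 * C * u ^ 802 * (2 * Real.exp u * Real.exp L) * Real.exp (-(u ^ 2)) := by
          refine mul_le_mul_of_nonneg_right ?_ (Real.exp_pos _).le
          exact mul_le_mul_of_nonneg_left hx (by positivity)
      _ = (1440 * C * u ^ 802) * (Real.exp L * (Real.exp u * Real.exp (-(u ^ 2)))) / 2 := by ring
      _ ≤ Real.exp u * (Real.exp L * (Real.exp u * Real.exp (-(u ^ 2)))) / 2 := by
          have := mul_le_mul_of_nonneg_right hCu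
            (show 0 ≤ Real.exp L * (Real.exp u * Real.exp (-(u ^ 2))) by positivity)
          linarith
      _ = Real.exp L * (Real.exp u * Real.exp u * Real.exp (-(u ^ 2))) / 2 := by ring
      _ ≤ Real.exp L * Real.exp (-(2 * u)) / 2 := by
          have h9 : Real.exp u * Real.exp u * Real.exp (-(u ^ 2)) ≤ Real.exp (-(2 * u)) := by
            rw [← Real.exp_add, ← Real.exp_add]
            refine Real.exp_le_exp.2 ?_
            linarith
          have := mul_le_mul_of_nonneg_left h9 (Real.exp_pos L).le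
          linarith
  have hr2 : r ≤ 2 * Real.exp u * Real.exp (L / 2) := by
    rw [hr, Real.sqrt_le_left (by positivity)]
    refine hx.trans ?_
    have e3 : (2 * Real.exp u * Real.exp (L / 2)) ^ 2 =
        4 * (Real.exp u * Real.exp u) * (Real.exp (L / 2) * Real.exp (L / 2)) := by ring
    have e4 : Real.exp (L / 2) * Real.exp (L / 2) = Real.exp L := by
      rw [← Real.exp_add]
      congr 1
      ring
    rw [e3, e4]
    refine mul_le_mul_of_nonneg_right ?_ (Real.exp_pos _).le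
    exact bqh_ee (Real.one_le_exp hu0.le)
  have hp2 : 15 * C * u ^ 202 * r * D ≤ Real.exp L * Real.exp (-(2 * u)) / 2 := by
    have h9 : 60 * C * u ^ 202 ≤ Real.exp u := by
      have h10 : u ^ 202 ≤ u ^ 802 := pow_le_pow_right₀ (by linarith) (by norm_num)
      have h11 : C * u ^ 202 ≤ C * u ^ 802 := mul_le_mul_of_nonneg_left h10 hC.le
      have h12 : 0 ≤ C * u ^ 802 := by positivity
      linarith
    have hL5 : 100 * u ≤ L := by
      have h10 : (100 : ℝ) ≤ u ^ 199 := by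
        have h11 : u ^ 3 ≤ u ^ 199 := pow_le_pow_right₀ (by linarith) (by norm_num)
        have h12 : (6 : ℝ) ^ 3 ≤ u ^ 3 := pow_le_pow_left₀ (by norm_num) hu 3
        norm_num at h12
        linarith
      calc 100 * u ≤ u ^ 199 * u := mul_le_mul_of_nonneg_right h10 hu0.le
        _ = L := by rw [hLdef]; ring
    calc 15 * C * u ^ 202 * r * D ≤
          15 * C * u ^ 202 * (2 * Real.exp u * Real.exp (L / 2)) *
            (Real.exp u * Real.exp (9 / 20 * L)) :=
          mul_le_mul (mul_le_mul_of_nonneg_left hr2 (by positivity)) hD hD0 (by positivity)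
      _ = (60 * C * u ^ 202) * (Real.exp u * Real.exp u * (Real.exp (L / 2) *
            Real.exp (9 / 20 * L))) / 2 := by ring
      _ ≤ Real.exp u * (Real.exp u * Real.exp u * (Real.exp (L / 2) * Real.exp (9 / 20 * L))) / 2 := by
          have := mul_le_mul_of_nonneg_right h9 (show 0 ≤ Real.exp u * Real.exp u *
            (Real.exp (L / 2) * Real.exp (9 / 20 * L)) by positivity)
          linarith
      _ ≤ Real.exp L * Real.exp (-(2 * u)) / 2 := by
          have h10 : Real.exp u * (Real.exp u * Real.exp u * (Real.exp (L / 2) *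
              Real.exp (9 / 20 * L))) ≤ Real.exp L * Real.exp (-(2 * u)) := by
            rw [← Real.exp_add, ← Real.exp_add, ← Real.exp_add, ← Real.exp_add, ← Real.exp_add]
            refine Real.exp_le_exp.2 ?_
            linarith
          linarith
  linarith

theorem pBqH (h : TysStmt) : BqHStmt := by
  obtain ⟨C, hC, hT⟩ := h
  obtain ⟨u0, hu0, hlim⟩ := bqh_lim C hC
  refine ⟨Real.exp (u0 ^ 200), ?_⟩
  intro X q l hX hq hlq
  have hX0 : (0 : ℝ) < X := lt_of_lt_of_le (Real.exp_pos _) hX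
  have hLX : u0 ^ 200 ≤ Real.log X := by
    rw [Real.le_log_iff_exp_le hX0]
    exact hX
  have hu0p : 0 < u0 := by linarith
  have hL0 : 0 < Real.log X := lt_of_lt_of_le (by positivity) hLX
  set L := Real.log X with hLdef
  set u := L ^ ((1 : ℝ) / 200) with hudef
  have hu0u : u0 ≤ u := by
    have e1 : u0 = (u0 ^ 200) ^ ((1 : ℝ) / 200) := by
      rw [← Real.rpow_natCast, ← Real.rpow_mul hu0p.le]
      norm_num
    rw [e1]
    exact Real.rpow_le_rpow (by positivity) hLX (by norm_num)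
  have hu6 : 6 ≤ u := hu0.trans hu0u
  have hup : 0 < u := by linarith
  obtain ⟨hu36, _⟩ := bqh_sq hu6
  have huL : u ^ 200 = L := by
    rw [hudef, ← Real.rpow_natCast, ← Real.rpow_mul hL0.le]
    norm_num
  have hy : yX X = u ^ 2 := by
    unfold yX
    rw [← hLdef, hudef, ← Real.rpow_natCast, ← Real.rpow_mul hL0.le]
    norm_num
  have hs : Real.sqrt L = u ^ 100 := by
    rw [← huL, show u ^ 200 = (u ^ 100) ^ 2 by ring, Real.sqrt_sq (by positivity)]
  have hXexp : (X : ℝ) = Real.exp L := (Real.exp_log hX0).symm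
  have hq0 : (0 : ℝ) < q := by exact_mod_cast hq
  have hqu : (q : ℝ) ≤ Real.exp u := by
    rw [← Real.log_le_iff_le_exp hq0]
    exact hlq
  have hq1 : (1 : ℝ) ≤ q := by exact_mod_cast hq
  have hLu : u ≤ L := by
    rw [← huL]
    exact le_self_pow₀ (by linarith) (by norm_num)
  have hL6 : 6 ≤ L := by linarith
  have hX7 : (7 : ℝ) ≤ X := by
    rw [hXexp]
    have := Real.add_one_le_exp L
    linarith
  -- parameters
  set x : ℝ := ((q * X + 1 : ℕ) : ℝ) with hx
  have hxe : x = q * X + 1 := by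
    rw [hx]
    push_cast
    ring
  have hqX : (X : ℝ) ≤ q * X := le_mul_of_one_le_left hX0.le hq1
  have hx4 : 4 ≤ x := by linarith
  have hxu : x ≤ 2 * Real.exp u * Real.exp (u ^ 200) := by
    rw [huL, ← hXexp, hxe]
    have h1 : (q : ℝ) * X ≤ Real.exp u * X := mul_le_mul_of_nonneg_right hqu hX0.le
    linarith
  set D0 : ℕ := ⌊(X : ℝ) ^ ((9 : ℝ) / 20)⌋₊ with hD0
  have hX1 : (1 : ℝ) ≤ (X : ℝ) ^ ((9 : ℝ) / 20) := Real.one_le_rpow (by linarith) (by norm_num)
  have hD01 : 1 ≤ D0 := by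
    refine Nat.le_floor ?_
    rw [Nat.cast_one]
    exact hX1
  have hD0u : (D0 : ℝ) ≤ Real.exp (9 / 20 * L) := by
    refine (Nat.floor_le (by positivity)).trans (le_of_eq ?_)
    rw [hXexp, ← Real.exp_mul]
    congr 1
    ring
  have hDu : ((q * D0 : ℕ) : ℝ) ≤ Real.exp u * Real.exp (9 / 20 * u ^ 200) := by
    rw [huL]
    push_cast
    exact mul_le_mul hqu hD0u (Nat.cast_nonneg _) (Real.exp_pos _).le
  have hD1 : 1 ≤ q * D0 := Nat.mul_pos hq hD01
  have hη0 : 0 < eX X := by unfold eX; exact Real.exp_pos _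
  have hη2 : eX X ≤ 1 / 2 := by
    unfold eX
    rw [Real.exp_neg, hy, inv_eq_one_div]
    have h1 := Real.add_one_le_exp (4 * u ^ 2)
    exact one_div_le_one_div_of_le (by norm_num) (by linarith)
  have hlη : Real.log (1 / eX X) = 4 * u ^ 2 := by
    unfold eX
    rw [Real.exp_neg, one_div, inv_inv, Real.log_exp, hy]
  have hez : (8 : ℝ) ≤ Real.exp (u ^ 100) := by
    have h1 := Real.add_one_le_exp (u ^ 100)
    have h3 : u ^ 2 ≤ u ^ 100 := pow_le_pow_right₀ (by linarith) (by norm_num)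
    linarith
  have hzl : Real.exp (u ^ 100) / 2 ≤ (zX X : ℝ) := by
    unfold zX
    rw [← hLdef, hs]
    have := Nat.lt_floor_add_one (Real.exp (u ^ 100))
    linarith
  have hz4 : (4 : ℝ) ≤ (zX X : ℝ) := by linarith
  have hz2 : 2 ≤ zX X := by
    have : (2 : ℝ) ≤ (zX X : ℝ) := by linarith
    exact_mod_cast this
  have hlz : 1 ≤ Real.log (zX X) := by
    rw [Real.le_log_iff_exp_le (by linarith)]
    have := Real.exp_one_lt_three
    linarith
  have heQ : (8 : ℝ) ≤ Real.exp (u ^ 2) := by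
    have h1 := Real.add_one_le_exp (u ^ 2)
    linarith
  have hQl : Real.exp (u ^ 2) / 2 ≤ (QX X : ℝ) := by
    unfold QX
    rw [hy]
    have := Nat.lt_floor_add_one (Real.exp (u ^ 2))
    linarith
  have hQ1 : 1 ≤ QX X := by
    have : (1 : ℝ) ≤ (QX X : ℝ) := by linarith
    exact_mod_cast this
  have hKu : (KX X : ℝ) ≤ 3 * u ^ 200 := by
    unfold KX
    rw [← hLdef, huL]
    have := Nat.ceil_lt_add_one (show 0 ≤ 2 * L by linarith)
    linarith
  have hlD0 : 0 ≤ Real.log ((q * D0 : ℕ) : ℝ) := Real.log_nonneg (by exact_mod_cast hD1)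
  have hlD : 1 + Real.log ((q * D0 : ℕ) : ℝ) ≤ 2 * u ^ 200 := by
    have h1 : Real.log ((q * D0 : ℕ) : ℝ) ≤ u + 9 / 20 * u ^ 200 := by
      rw [Real.log_le_iff_le_exp (by exact_mod_cast hD1), Real.exp_add]
      exact hDu
    have h2 : u ≤ u ^ 200 := by rw [huL]; exact hLu
    have h3 : 6 ≤ u ^ 200 := by rw [huL]; exact hL6
    linarith
  -- reindex
  have key := hT x (eX X) (zX X) (KX X) (JX X) (QX X) (q * D0) (fun _ => x) (fun d => l (d / q)) hx4
    hη0 hη2 hz2 hQ1 hD1 (fun _ => le_rfl)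
  have hre : ∑ d ∈ Icc 1 D0, ‖del (fun c => QX X < c) (Fx X x) (4 * ⌊x⌋₊) (q * d) (l d)‖ ≤
      ∑ d ∈ Icc 1 (q * D0), ‖del (fun c => QX X < c)
        (fun n => (FY (eX X) (zX X) (KX X) (JX X) x n : ℂ)) (4 * ⌊x⌋₊) d (l (d / q))‖ := by
    have h1 : ∑ d ∈ Icc 1 D0, ‖del (fun c => QX X < c) (Fx X x) (4 * ⌊x⌋₊) (q * d) (l d)‖ =
        ∑ d ∈ (Icc 1 D0).image (fun d => q * d), ‖del (fun c => QX X < c)
          (fun n => (FY (eX X) (zX X) (KX X) (JX X) x n : ℂ)) (4 * ⌊x⌋₊) d (l (d / q))‖ := by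
      rw [Finset.sum_image]
      · refine Finset.sum_congr rfl fun d _ => ?_
        rw [Nat.mul_div_cancel_left d hq]
        rfl
      · intro a _ b _ hab
        exact Nat.eq_of_mul_eq_mul_left hq hab
    rw [h1]
    refine Finset.sum_le_sum_of_subset_of_nonneg ?_ (fun _ _ _ => norm_nonneg _)
    intro d hd
    rw [mem_image] at hd
    obtain ⟨e, he, rfl⟩ := hd
    rw [mem_Icc] at he ⊢
    exact ⟨Nat.mul_pos hq he.1, Nat.mul_le_mul_left q he.2⟩
  rw [hlη] at key
  have harith := bqh_arith (C := C) (u := u) (x := x) (D := ((q * D0 : ℕ) : ℝ)) (z := (zX X : ℝ))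
    (Q := (QX X : ℝ)) (K := (KX X : ℝ)) (E := 4 * u ^ 2) (lD := Real.log ((q * D0 : ℕ) : ℝ))
    (lz := Real.log (zX X)) hC hu6 (hlim u hu0u) (by linarith) hxu rfl (Nat.cast_nonneg _) hKu
    (by linarith) hzl hlz hQl (Nat.cast_nonneg _) hDu hlD0 hlD
  refine hre.trans (key.trans (harith.trans (le_of_eq ?_)))
  unfold TX
  rw [huL, ← hXexp, ← hLdef, ← hudef]

end Pool.Agent.Lib.MP_9f2731_nt.CG.Bq
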