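import Pool.Agent.Lib.MP_9f2731_nt.CG.Bq.Spec
import Pool.Agent.Lib.BV.Lpc

/-!
MP_9f2731_nt, CG/Bq, module BqL (helper29): the characters of low conductor.
-/

namespace Pool.Agent.Lib.MP_9f2731_nt.CG.Bq

open Finset Pool.Agent.Lib.BV

open Pool.Agent.Lib.MP_9f2731_nt.QL Pool.Agent.Lib.MP_9f2731_nt.QL.Pw Pool.Agent.Lib.MP_9f2731_nt.CG

private theorem bql_cs {x : ℝ} (hx : 0 ≤ x) {D : ℕ} (χ : DirichletCharacter ℂ D) :
    cs (Px x) (4 * ⌊x⌋₊) 1 χ = ∑ p ∈ (Icc 1 ⌊x⌋₊).filter Nat.Prime, χ (p : ZMod D) := by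
  classical
  unfold cs
  have h1 : (Icc 1 ⌊x⌋₊).filter Nat.Prime =
      ((Icc 1 (4 * ⌊x⌋₊)).filter (fun n => n.Coprime 1)).filter
        (fun n : ℕ => n.Prime ∧ (n : ℝ) ≤ x) := by
    ext n
    simp only [Finset.mem_filter, Finset.mem_Icc]
    rw [← Nat.le_floor_iff hx]
    constructor
    · rintro ⟨⟨h2, h3⟩, h4⟩
      exact ⟨⟨⟨h2, by omega⟩, Nat.coprime_one_right n⟩, h4, h3⟩
    · rintro ⟨⟨⟨h2, _⟩, _⟩, h4, h3⟩
      exact ⟨⟨h2, h3⟩, h4⟩
  rw [h1, Finset.sum_filter _ (fun p : ℕ => χ (p : ZMod D))]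
  refine Finset.sum_congr rfl fun n _ => ?_
  unfold Px PY
  split_ifs
  · rw [Complex.ofReal_one, one_mul]
  · rw [Complex.ofReal_zero, zero_mul]

private theorem bql_mem {α : Type} [Fintype α] {p : α → Prop} {inst : DecidablePred p} {a : α} :
    a ∈ @Finset.filter α p inst univ ↔ p a := by
  rw [Finset.mem_filter]
  exact ⟨fun h => h.2, fun h => ⟨mem_univ a, h⟩⟩

private theorem bql_inst {α : Type} [Fintype α] {p : α → Prop} {i1 i2 : DecidablePred p} :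
    @Finset.filter α p i1 univ = @Finset.filter α p i2 univ := by
  ext a
  rw [bql_mem, bql_mem]

/-- the number of the prime factors is small -/
private theorem bql_num {x : ℝ} (hx0 : 0 < x) (hL : 12 ≤ Real.log x) :
    2 * Real.log x ≤ x * Real.exp (-(Real.log x) ^ ((1 : ℝ) / 80)) := by
  set L := Real.log x with hLdef
  have h1 : L ^ ((1 : ℝ) / 80) ≤ L / 2 := by
    have h2 : L ^ ((1 : ℝ) / 80) ≤ L ^ ((1 : ℝ) / 2) :=
      Real.rpow_le_rpow_of_exponent_le (by linarith) (by norm_num)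
    have h3 : L ^ ((1 : ℝ) / 2) ≤ L / 2 := by
      rw [← Real.sqrt_eq_rpow, Real.sqrt_le_left (by linarith)]
      nlinarith
    linarith
  have h4 : x = Real.exp L := by rw [hLdef, Real.exp_log hx0]
  have h5 : Real.exp (L / 2) ≤ x * Real.exp (-(L ^ ((1 : ℝ) / 80))) := by
    rw [h4, ← Real.exp_add]
    exact Real.exp_le_exp.2 (by linarith)
  have h6 := Real.quadratic_le_exp_of_nonneg (show 0 ≤ L / 2 by linarith)
  have h7 : 2 * L ≤ Real.exp (L / 2) := by nlinarith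
  linarith

theorem pBqL (h1 : SwQStmt) (h2 : CndStmt) : BqLStmt := by
  classical
  intro c3 hc3
  obtain ⟨x1, hx1⟩ := h1 c3 hc3
  refine ⟨max x1 (Real.exp 12), ?_⟩
  intro x y D l hx hy1 hy hD hDx hNex
  have : NeZero D := ⟨by omega⟩
  have hxx1 : x1 ≤ x := (le_max_left _ _).trans hx
  have hxe : Real.exp 12 ≤ x := (le_max_right _ _).trans hx
  have hx0 : 0 < x := lt_of_lt_of_le (Real.exp_pos _) hxe
  have hL : 12 ≤ Real.log x := (Real.le_log_iff_exp_le hx0).2 hxe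
  have hD0 : (0 : ℝ) < D := by exact_mod_cast hD
  have hlD : Real.log D ≤ Real.log x := Real.log_le_log hD0 hDx
  set B := 2 * (x * Real.exp (-(Real.log x) ^ ((1 : ℝ) / 80))) with hB
  have hB0 : 0 ≤ B := by positivity
  have hchar : ∀ χ : DirichletCharacter ℂ D, 1 < χ.conductor ∧ χ.conductor ≤ ⌊Real.exp y⌋₊ →
      ‖χ ((l : ZMod D)⁻¹) * cs (Px x) (4 * ⌊x⌋₊) 1 χ‖ ≤ B := by
    intro χ hχ
    obtain ⟨c1, cQ⟩ := hχ
    have c0 := χ.conductor_ne_zero
    have cd : χ.conductor ∣ D := χ.conductor_dvd_level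
    have c2 : NeZero χ.conductor := ⟨c0⟩
    have c3' : Real.log χ.conductor ≤ y := by
      rw [Real.log_le_iff_le_exp (by exact_mod_cast Nat.pos_of_ne_zero c0)]
      exact (Nat.cast_le.2 cQ).trans (Nat.floor_le (Real.exp_pos _).le)
    have e1 := hx1 x y χ.conductor χ.primitiveCharacter hxx1 hy1 hy (by omega) c3'
      χ.primitiveCharacter_isPrimitive
      (hNex χ.conductor χ.primitiveCharacter cd (by omega) c3' χ.primitiveCharacter_isPrimitive)
    have e2 := tLpc D ⌊x⌋₊ χ hD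
    have e3 := norm_sub_norm_le (∑ p ∈ (Icc 1 ⌊x⌋₊).filter Nat.Prime, χ (p : ZMod D))
      (∑ p ∈ (Icc 1 ⌊x⌋₊).filter Nat.Prime, χ.primitiveCharacter (p : ZMod χ.conductor))
    have e4 := bql_num hx0 hL
    rw [norm_mul, bql_cs hx0.le]
    have e5 : ‖χ ((l : ZMod D)⁻¹)‖ ≤ 1 := DirichletCharacter.norm_le_one χ _
    calc _ ≤ 1 * ‖∑ p ∈ (Icc 1 ⌊x⌋₊).filter Nat.Prime, χ (p : ZMod D)‖ :=
          mul_le_mul_of_nonneg_right e5 (norm_nonneg _)
      _ ≤ B := by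
        rw [one_mul, hB]
        linarith
  have hcard := h2 D ⌊Real.exp y⌋₊ hD
  have hQ : ((⌊Real.exp y⌋₊ : ℕ) : ℝ) ^ 2 ≤ Real.exp (2 * y) := by
    have e1 : ((⌊Real.exp y⌋₊ : ℕ) : ℝ) ≤ Real.exp y := Nat.floor_le (Real.exp_pos _).le
    have e2 : ((⌊Real.exp y⌋₊ : ℕ) : ℝ) ^ 2 ≤ (Real.exp y) ^ 2 :=
      pow_le_pow_left₀ (Nat.cast_nonneg _) e1 2
    refine e2.trans (le_of_eq ?_)
    rw [← Real.exp_nat_mul]
    norm_num
  unfold del
  rw [norm_mul]
  have e0 : ‖(1 / (D.totient : ℂ))‖ = 1 / (D.totient : ℝ) := by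
    rw [norm_div, norm_one, Complex.norm_natCast]
  rw [e0]
  refine mul_le_mul_of_nonneg_left ?_ (by positivity)
  refine (norm_sum_le _ _).trans
    ((Finset.sum_le_sum (fun χ hχ => hchar χ (by
      have h := bql_mem.1 hχ
      exact h))).trans ?_)
  rw [Finset.sum_const, nsmul_eq_mul]
  refine mul_le_mul_of_nonneg_right ?_ hB0
  refine le_trans ?_ (hcard.trans hQ)
  refine le_of_eq ?_
  congr 2
  exact bql_inst

end Pool.Agent.Lib.MP_9f2731_nt.CG.Bq
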