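import Pool.Agent.Lib.MP_9f2731_nt.CG.Bq.Spec

/-!
MP_9f2731_nt, CG/Bq, module BqR (helper29): the choice of the parameters.
-/

namespace Pool.Agent.Lib.MP_9f2731_nt.CG.Bq

open Finset Pool.Agent.Lib.BV

open Pool.Agent.Lib.MP_9f2731_nt.QL Pool.Agent.Lib.MP_9f2731_nt.QL.Pw Pool.Agent.Lib.MP_9f2731_nt.CG

private theorem bqr_y {X : ℕ} (hL : 0 ≤ Real.log X) : (yX X) ^ 100 = Real.log X := by
  unfold yX
  rw [← Real.rpow_natCast, ← Real.rpow_mul hL]
  norm_num

private theorem bqr_y0 (X : ℕ) (hL : 0 ≤ Real.log X) : 0 ≤ yX X := Real.rpow_nonneg hL _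

private theorem bqr_s {X : ℕ} (hL : 0 ≤ Real.log X) : Real.sqrt (Real.log X) = (yX X) ^ 50 := by
  rw [← bqr_y hL, show (yX X) ^ 100 = ((yX X) ^ 50) ^ 2 by ring,
    Real.sqrt_sq (pow_nonneg (bqr_y0 X hL) 50)]

/-- the parameter inequality -/
private theorem bqr_par {X : ℕ} {x C y s L : ℝ} {z b Q : ℕ} (hC : 0 < C) (hy2 : 2 ≤ y)
    (hyC : 6 + 21 * C ≤ y) (hs : s = y ^ 50) (hL : L = y ^ 100) (hX : (X : ℝ) = Real.exp L)
    (hx : (X : ℝ) ≤ x) (hz : z = ⌊Real.exp s⌋₊) (hb : b = ⌈4 * y⌉₊) (hQ : Q = ⌊Real.exp y⌋₊)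
    (φ : ℝ) (hφ : 0 < φ) :
    (2 + (Q : ℝ) ^ 2) * (Real.sqrt x + 4 * (z : ℝ) ^ (16 * b) +
        x / φ * (1 / z + C * ((5 * Real.exp (-(4 * y)) + 1 / x + Real.exp (-(b : ℝ))) / Real.log z))) ≤
      (X : ℝ) ^ ((1 : ℝ) / 100) * Real.sqrt x + x / φ * Real.exp (-y) := by
  have hy0 : 0 < y := by linarith
  have hpow : ∀ n : ℕ, (2 : ℝ) ^ n ≤ y ^ n := fun n => pow_le_pow_left₀ (by norm_num) hy2 n
  have hy49 : (6 : ℝ) ≤ y ^ 49 := le_trans (by norm_num) (hpow 49)
  have hs6 : 6 * y ≤ s := by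
    rw [hs, show y ^ 50 = y ^ 49 * y by ring]
    exact mul_le_mul_of_nonneg_right hy49 hy0.le
  have hsL : s * s = L := by rw [hs, hL]; ring
  have hs0 : 0 < s := by linarith
  have hs12 : 12 ≤ s := by linarith
  -- numbers
  have hL1 : 6 * y ≤ L := by
    rw [← hsL]
    nlinarith
  have h49 : (1000 : ℝ) ≤ y ^ 49 := le_trans (by norm_num) (hpow 49)
  have hs1000 : 1000 * y ≤ s := by
    rw [hs, show y ^ 50 = y ^ 49 * y by ring]
    exact mul_le_mul_of_nonneg_right h49 hy0.le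
  have hf1 : 80 * y * s + 2 ≤ L / 2 := by
    rw [← hsL]
    have h1 : 1000 * y * s ≤ s * s := mul_le_mul_of_nonneg_right hs1000 hs0.le
    have h2 : 2 * 12 ≤ y * s := by nlinarith
    nlinarith
  have hf2 : 2 * y + 2 ≤ L / 100 := by
    rw [← hsL]
    have h1 : 1000 * y * s ≤ s * s := mul_le_mul_of_nonneg_right hs1000 hs0.le
    have h2 : y * 12 ≤ y * s := mul_le_mul_of_nonneg_left hs12 hy0.le
    nlinarith
  have hX0 : (0 : ℝ) < X := by rw [hX]; exact Real.exp_pos _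
  have hx0 : 0 < x := lt_of_lt_of_le hX0 hx
  -- the parameter Q
  have hQ1 : (Q : ℝ) ≤ Real.exp y := by
    rw [hQ]
    exact Nat.floor_le (Real.exp_pos _).le
  have hQ2 : 2 + (Q : ℝ) ^ 2 ≤ 3 * Real.exp (2 * y) := by
    have h1 : (Q : ℝ) ^ 2 ≤ (Real.exp y) ^ 2 := pow_le_pow_left₀ (Nat.cast_nonneg _) hQ1 2
    have h2 : (Real.exp y) ^ 2 = Real.exp (2 * y) := by
      rw [← Real.exp_nat_mul]
      norm_num
    have h3 : (1 : ℝ) ≤ Real.exp (2 * y) := Real.one_le_exp (by linarith)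
    rw [h2] at h1
    linarith
  -- the parameter z
  have hzu : (z : ℝ) ≤ Real.exp s := by
    rw [hz]
    exact Nat.floor_le (Real.exp_pos _).le
  have hes : (12 : ℝ) ≤ Real.exp s := by
    have := Real.add_one_le_exp s
    linarith
  have hzl : Real.exp s / 2 ≤ z := by
    have h1 : Real.exp s < (⌊Real.exp s⌋₊ : ℝ) + 1 := Nat.lt_floor_add_one _
    rw [← hz] at h1
    linarith
  have hz6 : (6 : ℝ) ≤ z := by linarith
  have hz0 : (0 : ℝ) < z := by linarith
  have hlz : 1 ≤ Real.log z := by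
    rw [Real.le_log_iff_exp_le hz0]
    have := Real.exp_one_lt_three
    linarith
  -- the parameter b
  have hbu : (b : ℝ) ≤ 4 * y + 1 := by
    rw [hb]
    exact (Nat.ceil_lt_add_one (by linarith)).le
  have hbl : 4 * y ≤ b := by
    rw [hb]
    exact Nat.le_ceil _
  have hzb : 4 * (z : ℝ) ^ (16 * b) ≤ Real.sqrt x := by
    have h1 : (z : ℝ) ^ (16 * b) ≤ Real.exp (80 * y * s) := by
      have h2 : (z : ℝ) ^ (16 * b) ≤ (Real.exp s) ^ (16 * b) := pow_le_pow_left₀ hz0.le hzu _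
      refine h2.trans ?_
      rw [← Real.exp_nat_mul]
      refine Real.exp_le_exp.2 ?_
      push_cast
      have h3 : 16 * (b : ℝ) * s ≤ 16 * (4 * y + 1) * s :=
        mul_le_mul_of_nonneg_right (by linarith) hs0.le
      have h4 : 16 * (4 * y + 1) * s ≤ 80 * y * s :=
        mul_le_mul_of_nonneg_right (by linarith) hs0.le
      linarith
    have h2 : (4 : ℝ) ≤ Real.exp 2 := by
      have h3 : (2 : ℝ) ≤ Real.exp 1 := by
        have := Real.add_one_le_exp (1 : ℝ)
        linarith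
      have h4 : Real.exp 2 = Real.exp 1 * Real.exp 1 := by
        rw [← Real.exp_add]
        norm_num
      rw [h4]
      nlinarith
    have h3 : Real.exp (L / 2) ≤ Real.sqrt x := by
      apply Real.le_sqrt_of_sq_le
      rw [← Real.exp_nat_mul]
      have h4 : ((2 : ℕ) : ℝ) * (L / 2) = L := by push_cast; ring
      rw [h4, ← hX]
      exact hx
    calc 4 * (z : ℝ) ^ (16 * b) ≤ Real.exp 2 * Real.exp (80 * y * s) :=
          mul_le_mul h2 h1 (by positivity) (Real.exp_pos _).le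
      _ = Real.exp (2 + 80 * y * s) := (Real.exp_add _ _).symm
      _ ≤ Real.exp (L / 2) := Real.exp_le_exp.2 (by linarith)
      _ ≤ Real.sqrt x := h3
  have hpart1 : (2 + (Q : ℝ) ^ 2) * (Real.sqrt x + 4 * (z : ℝ) ^ (16 * b)) ≤
      (X : ℝ) ^ ((1 : ℝ) / 100) * Real.sqrt x := by
    have h1 : (X : ℝ) ^ ((1 : ℝ) / 100) = Real.exp (L / 100) := by
      rw [hX, ← Real.exp_mul]
      congr 1
      ring
    have h2 : (6 : ℝ) ≤ Real.exp 2 := by
      have h3 : (2.5 : ℝ) ≤ Real.exp 1 := by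
        have := Real.exp_one_gt_d9
        linarith
      have h4 : Real.exp 2 = Real.exp 1 * Real.exp 1 := by
        rw [← Real.exp_add]
        norm_num
      rw [h4]
      nlinarith
    have h3 : 6 * Real.exp (2 * y) ≤ Real.exp (L / 100) := by
      calc 6 * Real.exp (2 * y) ≤ Real.exp 2 * Real.exp (2 * y) :=
            mul_le_mul_of_nonneg_right h2 (Real.exp_pos _).le
        _ = Real.exp (2 + 2 * y) := (Real.exp_add _ _).symm
        _ ≤ Real.exp (L / 100) := Real.exp_le_exp.2 (by linarith)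
    rw [h1]
    calc (2 + (Q : ℝ) ^ 2) * (Real.sqrt x + 4 * (z : ℝ) ^ (16 * b)) ≤
          (3 * Real.exp (2 * y)) * (Real.sqrt x + Real.sqrt x) :=
          mul_le_mul hQ2 (by linarith) (by positivity) (by positivity)
      _ = (6 * Real.exp (2 * y)) * Real.sqrt x := by ring
      _ ≤ _ := mul_le_mul_of_nonneg_right h3 (Real.sqrt_nonneg _)
  have hpart2 : (2 + (Q : ℝ) ^ 2) *
      (1 / z + C * ((5 * Real.exp (-(4 * y)) + 1 / x + Real.exp (-(b : ℝ))) / Real.log z)) ≤
      Real.exp (-y) := by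
    have h1 : 1 / (z : ℝ) ≤ 2 * Real.exp (-(6 * y)) := by
      calc 1 / (z : ℝ) ≤ 1 / (Real.exp s / 2) := one_div_le_one_div_of_le (by positivity) hzl
        _ = 2 * Real.exp (-s) := by
          rw [Real.exp_neg]
          field_simp
        _ ≤ 2 * Real.exp (-(6 * y)) :=
          mul_le_mul_of_nonneg_left (Real.exp_le_exp.2 (by linarith)) (by norm_num)
    have h2 : 1 / x ≤ Real.exp (-(4 * y)) := by
      calc 1 / x ≤ 1 / (X : ℝ) := one_div_le_one_div_of_le hX0 hx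
        _ = Real.exp (-L) := by
          rw [hX, Real.exp_neg]
          field_simp
        _ ≤ Real.exp (-(4 * y)) := Real.exp_le_exp.2 (by linarith)
    have h3 : Real.exp (-(b : ℝ)) ≤ Real.exp (-(4 * y)) := Real.exp_le_exp.2 (by linarith)
    have h4 : (5 * Real.exp (-(4 * y)) + 1 / x + Real.exp (-(b : ℝ))) / Real.log z ≤
        7 * Real.exp (-(4 * y)) := by
      have h5 : 0 ≤ 5 * Real.exp (-(4 * y)) + 1 / x + Real.exp (-(b : ℝ)) := by positivity
      refine (div_le_self h5 hlz).trans ?_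
      linarith
    have h6 : Real.exp (-(6 * y)) ≤ Real.exp (-(4 * y)) := Real.exp_le_exp.2 (by linarith)
    have h7 : 1 / z + C * ((5 * Real.exp (-(4 * y)) + 1 / x + Real.exp (-(b : ℝ))) / Real.log z) ≤
        (2 + 7 * C) * Real.exp (-(4 * y)) := by
      have h8 := mul_le_mul_of_nonneg_left h4 hC.le
      nlinarith
    have h9 : 0 ≤ 1 / (z : ℝ) +
        C * ((5 * Real.exp (-(4 * y)) + 1 / x + Real.exp (-(b : ℝ))) / Real.log z) := by positivity
    have h10 : (6 + 21 * C) ≤ Real.exp y := by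
      have := Real.add_one_le_exp y
      linarith
    have e1 : Real.exp (2 * y) * Real.exp (-(4 * y)) = Real.exp (-(2 * y)) := by
      rw [← Real.exp_add]
      congr 1
      ring
    have e2 : Real.exp y * Real.exp (-(2 * y)) = Real.exp (-y) := by
      rw [← Real.exp_add]
      congr 1
      ring
    calc (2 + (Q : ℝ) ^ 2) *
          (1 / z + C * ((5 * Real.exp (-(4 * y)) + 1 / x + Real.exp (-(b : ℝ))) / Real.log z)) ≤
          (3 * Real.exp (2 * y)) * ((2 + 7 * C) * Real.exp (-(4 * y))) :=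
          mul_le_mul hQ2 h7 h9 (by positivity)
      _ = (6 + 21 * C) * (Real.exp (2 * y) * Real.exp (-(4 * y))) := by ring
      _ = (6 + 21 * C) * Real.exp (-(2 * y)) := by rw [e1]
      _ ≤ Real.exp y * Real.exp (-(2 * y)) := mul_le_mul_of_nonneg_right h10 (Real.exp_pos _).le
      _ = Real.exp (-y) := e2
  have hxφ : 0 ≤ x / φ := by positivity
  have h := mul_le_mul_of_nonneg_left hpart2 hxφ
  calc _ = (2 + (Q : ℝ) ^ 2) * (Real.sqrt x + 4 * (z : ℝ) ^ (16 * b)) +
        x / φ * ((2 + (Q : ℝ) ^ 2) *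
        (1 / z + C * ((5 * Real.exp (-(4 * y)) + 1 / x + Real.exp (-(b : ℝ))) / Real.log z))) := by ring
    _ ≤ _ := add_le_add hpart1 h

theorem pBqR (h : BqAStmt) : BqRStmt := by
  obtain ⟨C, hC, hA⟩ := h
  refine ⟨Real.exp ((max 2 (6 + 21 * C)) ^ 100), ?_⟩
  intro X x D l hX hXx hx2 hD hl
  have hX0 : (0 : ℝ) < X := lt_of_lt_of_le (Real.exp_pos _) hX
  have hLX : (max 2 (6 + 21 * C)) ^ 100 ≤ Real.log X := by
    rw [Real.le_log_iff_exp_le hX0]
    exact hX
  have hL0 : 0 ≤ Real.log X := le_trans (by positivity) hLX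
  have hy : max 2 (6 + 21 * C) ≤ yX X := by
    by_contra hcon
    push Not at hcon
    have h1 : (yX X) ^ 100 < (max 2 (6 + 21 * C)) ^ 100 :=
      pow_lt_pow_left₀ hcon (bqr_y0 X hL0) (by norm_num)
    rw [bqr_y hL0] at h1
    linarith
  have hy2 : 2 ≤ yX X := (le_max_left _ _).trans hy
  have hyC : 6 + 21 * C ≤ yX X := (le_max_right _ _).trans hy
  have hy0 : 0 < yX X := by linarith
  have hexp : (X : ℝ) = Real.exp (Real.log X) := (Real.exp_log hX0).symm
  have hL4 : 4 ≤ Real.log X := by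
    rw [← bqr_y hL0]
    exact le_trans (by norm_num) (pow_le_pow_left₀ (by norm_num) hy2 100)
  have hX5 : (5 : ℝ) ≤ X := by
    rw [hexp]
    have := Real.add_one_le_exp (Real.log X)
    linarith
  have hl2 : (1 : ℝ) / 2 ≤ Real.log 2 := by
    have := Real.log_two_gt_d9
    linarith
  have hφ : (0 : ℝ) < (D.totient : ℝ) := by exact_mod_cast Nat.totient_pos.mpr hD
  have hη2 : eX X ≤ 1 / 2 := by
    unfold eX
    rw [Real.exp_neg]
    have h1 := Real.add_one_le_exp (4 * yX X)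
    rw [inv_eq_one_div]
    exact one_div_le_one_div_of_le (by norm_num) (by linarith)
  have hz2 : 2 ≤ zX X := by
    unfold zX
    refine Nat.le_floor ?_
    have h1 := Real.add_one_le_exp (Real.sqrt (Real.log X))
    have h2 : (2 : ℝ) ≤ Real.sqrt (Real.log X) := by
      apply Real.le_sqrt_of_sq_le
      norm_num
      exact hL4
    push_cast
    linarith
  have hb1 : 1 ≤ bX X := by
    unfold bX
    exact Nat.one_le_iff_ne_zero.2 (Nat.ceil_pos.2 (by linarith)).ne'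
  have hQ1 : 1 ≤ QX X := by
    unfold QX
    refine Nat.le_floor ?_
    rw [Nat.cast_one]
    exact Real.one_le_exp hy0.le
  have hpow2 : ∀ (n : ℕ) (t : ℝ), 2 * t ≤ n → 0 ≤ t → Real.exp t ≤ (2 : ℝ) ^ n := by
    intro n t hn ht
    have h1 : (2 : ℝ) ^ n = Real.exp (n * Real.log 2) := by
      rw [Real.exp_nat_mul, Real.exp_log (by norm_num)]
    rw [h1]
    refine Real.exp_le_exp.2 ?_
    have h2 : (n : ℝ) * (1 / 2) ≤ n * Real.log 2 := mul_le_mul_of_nonneg_left hl2 (Nat.cast_nonneg _)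
    linarith
  have hJ : x ≤ (2 : ℝ) ^ (JX X) := by
    refine hx2.trans ?_
    have h1 : (X : ℝ) ^ 2 = Real.exp (2 * Real.log X) := by
      rw [two_mul, Real.exp_add, ← hexp]
      ring
    rw [h1]
    refine hpow2 _ _ ?_ (by linarith)
    unfold JX
    have := Nat.le_ceil (4 * Real.log X)
    linarith
  have hK : x ≤ ((zX X : ℝ) * 2 ^ (KX X)) ^ 2 := by
    refine hx2.trans ?_
    refine pow_le_pow_left₀ hX0.le ?_ 2
    have h1 : (X : ℝ) ≤ (2 : ℝ) ^ (KX X) := by
      have h2 := hpow2 (KX X) (Real.log X) (by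
        unfold KX
        exact Nat.le_ceil _) (by linarith)
      rwa [← hexp] at h2
    have h3 : (1 : ℝ) ≤ zX X := by
      have : (2 : ℝ) ≤ zX X := by exact_mod_cast hz2
      linarith
    calc (X : ℝ) ≤ (2 : ℝ) ^ (KX X) := h1
      _ = 1 * (2 : ℝ) ^ (KX X) := (one_mul _).symm
      _ ≤ _ := mul_le_mul_of_nonneg_right h3 (by positivity)
  have h1 := hA x (eX X) (zX X) (bX X) (KX X) (JX X) (QX X) D l (by linarith)
    (by unfold eX; exact Real.exp_pos _) hη2 hz2 hb1 hJ hK hD hl hQ1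
  have h2 := bqr_par (X := X) (x := x) (C := C) (y := yX X) (s := Real.sqrt (Real.log X))
    (L := Real.log X) (z := zX X) (b := bX X) (Q := QX X) hC hy2 hyC (bqr_s hL0) (bqr_y hL0).symm
    hexp hXx rfl rfl rfl (D.totient : ℝ) hφ
  have e1 : eX X = Real.exp (-(4 * yX X)) := rfl
  rw [← e1] at h2
  have e2 : (fun n => (FY (eX X) (zX X) (KX X) (JX X) x n : ℂ)) = Fx X x := rfl
  rw [e2] at h1
  linarith

end Pool.Agent.Lib.MP_9f2731_nt.CG.Bq
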