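import Pool.Agent.Lib.MP_9f2731_nt.CG.Bq.Spec

/-!
MP_9f2731_nt, CG/Bq/BqS: the sum over d (helper60)
-/

namespace Pool.Agent.Lib.MP_9f2731_nt.CG.Bq

open Finset Pool.Agent.Lib.BV
open Pool.Agent.Lib.MP_9f2731_nt.QL Pool.Agent.Lib.MP_9f2731_nt.QL.Pw
open Pool.Agent.Lib.MP_9f2731_nt.CG

private lemma bqs_px (x : ℝ) (n : ℕ) : ‖Px x n‖ ≤ 1 := by
  unfold Px PY
  split_ifs <;> simp

private lemma bqs_px0 (x : ℝ) (n : ℕ) (h : ¬ n.Prime) : Px x n = 0 := by
  unfold Px PY
  rw [if_neg (fun hh => h hh.1)]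
  simp

private lemma bqs_C (x : ℝ) (q d : ℕ) (hq : 1 ≤ q) (hd : 1 ≤ d) (hcop : q.Coprime d) :
    ‖Mn x (q * d) - (1 / (d.totient : ℂ)) * Mn x q‖ ≤ d := by
  unfold Mn
  generalize 4 * ⌊x⌋₊ = N
  have h1 := Finset.sum_filter_add_sum_filter_not ((Icc 1 N).filter (fun n => n.Coprime q))
    (fun n => n.Coprime (q * d)) (Px x)
  have h2 : ((Icc 1 N).filter (fun n => n.Coprime q)).filter (fun n => n.Coprime (q * d)) =
      (Icc 1 N).filter (fun n => n.Coprime (q * d)) := by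
    rw [Finset.filter_filter]
    refine Finset.filter_congr (fun n _ => ⟨fun h => h.2, fun h => ⟨?_, h⟩⟩)
    exact Nat.Coprime.coprime_mul_right_right h
  rw [h2] at h1
  have hR : ‖∑ n ∈ ((Icc 1 N).filter (fun n => n.Coprime q)).filter
      (fun n => ¬ n.Coprime (q * d)), Px x n‖ ≤ d := by
    refine (norm_sum_le _ _).trans ?_
    have h3 : ∀ n ∈ ((Icc 1 N).filter (fun n => n.Coprime q)).filter
      (fun n => ¬ n.Coprime (q * d)), ‖Px x n‖ ≤ if n ∣ d then (1 : ℝ) else 0 := by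
      intro n hn
      simp only [Finset.mem_filter] at hn
      by_cases hp : n.Prime
      · have h4 : n ∣ q * d := by
          by_contra hh
          exact hn.2 ((Nat.Prime.coprime_iff_not_dvd hp).2 hh)
        have h5 : n ∣ d := by
          rcases (Nat.Prime.dvd_mul hp).1 h4 with h | h
          · exact absurd h ((Nat.Prime.coprime_iff_not_dvd hp).1 hn.1.2)
          · exact h
        rw [if_pos h5]
        exact bqs_px x n
      · rw [bqs_px0 x n hp]
        split_ifs <;> simp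
    refine (Finset.sum_le_sum h3).trans ?_
    rw [← Finset.sum_filter, Finset.sum_const, nsmul_eq_mul, mul_one]
    have h6 : (((Icc 1 N).filter (fun n => n.Coprime q)).filter
      (fun n => ¬ n.Coprime (q * d))).filter (fun n => n ∣ d) ⊆ Icc 1 d := by
      intro n hn
      simp only [Finset.mem_filter, Finset.mem_Icc] at hn ⊢
      exact ⟨hn.1.1.1.1, Nat.le_of_dvd hd hn.2⟩
    have h7 : ((((Icc 1 N).filter (fun n => n.Coprime q)).filter
      (fun n => ¬ n.Coprime (q * d))).filter (fun n => n ∣ d)).card ≤ d := by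
      have h8 := Finset.card_le_card h6
      rw [Nat.card_Icc, Nat.add_sub_cancel] at h8
      exact h8
    exact Nat.cast_le.2 h7
  have hφq : (1 : ℝ) ≤ (q.totient : ℝ) := by exact_mod_cast Nat.totient_pos.mpr hq
  have hφd : (1 : ℝ) ≤ (d.totient : ℝ) := by exact_mod_cast Nat.totient_pos.mpr hd
  have hq0 : (q.totient : ℂ) ≠ 0 := by
    have : q.totient ≠ 0 := (Nat.totient_pos.mpr hq).ne'
    exact_mod_cast this
  have hd0 : (d.totient : ℂ) ≠ 0 := by
    have : d.totient ≠ 0 := (Nat.totient_pos.mpr hd).ne'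
    exact_mod_cast this
  rw [Nat.totient_mul hcop, ← h1]
  push_cast
  have e1 : 1 / ((q.totient : ℂ) * (d.totient : ℂ)) *
      ∑ n ∈ (Icc 1 N).filter (fun n => n.Coprime (q * d)), Px x n -
      1 / (d.totient : ℂ) * (1 / (q.totient : ℂ) *
        (∑ n ∈ (Icc 1 N).filter (fun n => n.Coprime (q * d)), Px x n +
        ∑ n ∈ ((Icc 1 N).filter (fun n => n.Coprime q)).filter
          (fun n => ¬ n.Coprime (q * d)), Px x n)) =
      -(1 / ((q.totient : ℂ) * (d.totient : ℂ)) *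
        ∑ n ∈ ((Icc 1 N).filter (fun n => n.Coprime q)).filter
          (fun n => ¬ n.Coprime (q * d)), Px x n) := by
    field_simp
    ring
  rw [e1, norm_neg, norm_mul, norm_div, norm_one, norm_mul, Complex.norm_natCast,
    Complex.norm_natCast]
  have h8 : 1 / ((q.totient : ℝ) * (d.totient : ℝ)) ≤ 1 := by
    rw [div_le_one (by positivity)]
    nlinarith
  calc _ ≤ 1 * (d : ℝ) := mul_le_mul h8 hR (norm_nonneg _) (by norm_num)
    _ = d := one_mul _

private lemma bqs_pow : ∃ U : ℝ, ∀ u : ℝ, U ≤ u → u ^ 401 ≤ Real.exp u := by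
  have h := (Real.tendsto_exp_div_pow_atTop 401).eventually_ge_atTop 1
  obtain ⟨U, hU⟩ := Filter.eventually_atTop.1 h
  refine ⟨max U 1, fun u hu => ?_⟩
  have h1 := hU u ((le_max_left _ _).trans hu)
  have hu0 : 0 < u := by linarith [(le_max_right U 1).trans hu]
  rwa [le_div_iff₀ (by positivity), one_mul] at h1

theorem pBqS (h1 : BqRStmt) (h2 : BqLStmt) (h3 : BqHStmt) (h4 : BqTStmt) (h5 : TotStmt) :
    BqSStmt := by
  intro c3 hc3
  obtain ⟨XR, hXR⟩ := h1
  obtain ⟨xL, hxL⟩ := h2 c3 hc3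
  obtain ⟨XH, hXH⟩ := h3
  obtain ⟨U, hU⟩ := bqs_pow
  obtain ⟨T, hT⟩ : ∃ T : ℝ, T = max 36 U := ⟨_, rfl⟩
  have hT2 : 36 ≤ T := by rw [hT]; exact le_max_left _ _
  have hTU : U ≤ T := by rw [hT]; exact le_max_right _ _
  refine ⟨max (max XR (max xL XH)) (Real.exp (T ^ 200)), ?_⟩
  intro X q p0 hX hq hp0 hpq hlq hNex a ha
  have hXR' : XR ≤ X := ((le_max_left _ _).trans (le_max_left _ _)).trans hX
  have hXL' : xL ≤ X := (((le_max_left _ _).trans (le_max_right _ _)).trans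
    (le_max_left _ _)).trans hX
  have hXH' : XH ≤ X := (((le_max_right _ _).trans (le_max_right _ _)).trans
    (le_max_left _ _)).trans hX
  have hX2 : Real.exp (T ^ 200) ≤ X := (le_max_right _ _).trans hX
  have hX0 : (0 : ℝ) < X := (Real.exp_pos _).trans_le hX2
  obtain ⟨L, hL⟩ : ∃ L : ℝ, L = Real.log X := ⟨_, rfl⟩
  have hXe : (X : ℝ) = Real.exp L := by rw [hL, Real.exp_log hX0]
  have hLc : T ^ 200 ≤ L := by
    rw [hL, Real.le_log_iff_exp_le hX0]
    exact hX2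
  have hT0 : 0 < T := by linarith
  have hL0 : 0 < L := (by positivity : 0 < T ^ 200).trans_le hLc
  obtain ⟨u, hu⟩ : ∃ u : ℝ, u = L ^ ((1 : ℝ) / 200) := ⟨_, rfl⟩
  have hu200 : L = u ^ 200 := by
    rw [hu, ← Real.rpow_natCast, ← Real.rpow_mul hL0.le]
    norm_num
  have hupos : 0 < u := by rw [hu]; exact Real.rpow_pos_of_pos hL0 _
  have huT : T ≤ u := by
    have : T ^ 200 ≤ u ^ 200 := by rw [← hu200]; exact hLc
    exact le_of_pow_le_pow_left₀ (by norm_num) hupos.le this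
  have hu36 : 36 ≤ u := hT2.trans huT
  have hu1 : 1 ≤ u := by linarith
  have hyu : yX X = u ^ 2 := by
    unfold yX
    rw [← hL, hu, ← Real.rpow_natCast, ← Real.rpow_mul hL0.le]
    norm_num
  have hLu : 1296 * u ≤ L := by
    have e1 : u ^ 3 ≤ u ^ 200 := pow_le_pow_right₀ hu1 (by norm_num)
    rw [hu200]
    refine le_trans ?_ e1
    calc 1296 * u = 36 * 36 * u := by ring
      _ ≤ u * u * u := by gcongr
      _ = u ^ 3 := by ring
  have hu2 : 36 * u ≤ u ^ 2 := by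
    calc 36 * u ≤ u * u := mul_le_mul_of_nonneg_right hu36 hupos.le
      _ = u ^ 2 := by ring
  have hL80 : 6 * u ^ 2 ≤ L ^ ((1 : ℝ) / 80) := by
    have e1 : (6 * u ^ 2) ^ 80 ≤ L := by
      have e2 : (6 : ℝ) ^ 80 = 36 ^ 40 := by norm_num
      have e3 : (36 : ℝ) ^ 40 ≤ u ^ 40 := pow_le_pow_left₀ (by norm_num) hu36 40
      calc (6 * u ^ 2) ^ 80 = 36 ^ 40 * u ^ 160 := by rw [← e2]; ring
        _ ≤ u ^ 40 * u ^ 160 := mul_le_mul_of_nonneg_right e3 (by positivity)
        _ = L := by rw [hu200]; ring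
    have e4 : (((6 * u ^ 2) ^ 80 : ℝ)) ^ ((1 : ℝ) / 80) = 6 * u ^ 2 := by
      rw [← Real.rpow_natCast, ← Real.rpow_mul (by positivity)]
      norm_num
    rw [← e4]
    exact Real.rpow_le_rpow (by positivity) e1 (by norm_num)
  have hfin : 9 * (1 + L) ^ 2 ≤ Real.exp u := by
    have e1 := hU u (hTU.trans huT)
    have e2 : 1 + L ≤ 2 * u ^ 200 := by
      have : (1 : ℝ) ≤ u ^ 200 := one_le_pow₀ hu1
      rw [← hu200] at this ⊢
      linarith
    calc 9 * (1 + L) ^ 2 ≤ 9 * (2 * u ^ 200) ^ 2 := by gcongr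
      _ = 36 * u ^ 400 := by ring
      _ ≤ u * u ^ 400 := mul_le_mul_of_nonneg_right hu36 (by positivity)
      _ = u ^ 401 := by ring
      _ ≤ Real.exp u := e1
  clear hu200 hLc hX2 hX huT hTU hT2 hU hT
  -- the number q
  have hqr1 : (1 : ℝ) ≤ (q : ℝ) := by exact_mod_cast hq
  have hqe : (q : ℝ) ≤ Real.exp u := by
    rw [← hL, ← hu] at hlq
    exact (Real.log_le_iff_le_exp (by linarith)).1 hlq
  obtain ⟨x, hx⟩ : ∃ x : ℝ, x = ((q * X + 1 : ℕ) : ℝ) := ⟨_, rfl⟩
  have hx' : x = q * X + 1 := by rw [hx]; push_cast; ring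
  have hXx : (X : ℝ) ≤ x := by
    have h1 := mul_le_mul_of_nonneg_right hqr1 hX0.le
    rw [hx']
    linarith
  have hX1 : (1 : ℝ) ≤ X := by
    rw [hXe]
    exact Real.one_le_exp hL0.le
  have hx0 : 0 < x := by linarith
  have hxe : x ≤ Real.exp (1 + u + L) := by
    have h5 : 1 ≤ (q : ℝ) * X := one_le_mul_of_one_le_of_one_le hqr1 hX1
    have h6 : x ≤ 2 * ((q : ℝ) * X) := by rw [hx']; linarith
    have h7 : (2 : ℝ) ≤ Real.exp 1 := by
      have := Real.add_one_le_exp (1 : ℝ)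
      linarith
    rw [Real.exp_add, Real.exp_add, ← hXe]
    calc x ≤ 2 * ((q : ℝ) * X) := h6
      _ ≤ Real.exp 1 * (Real.exp u * X) := by gcongr
      _ = Real.exp 1 * Real.exp u * X := by ring
  have hxX2 : x ≤ (X : ℝ) ^ 2 := by
    refine hxe.trans ?_
    rw [hXe, ← Real.exp_nat_mul]
    apply Real.exp_le_exp.2
    push_cast
    linarith
  have hLx : L ≤ Real.log x := by rw [hL]; exact Real.log_le_log hX0 hXx
  obtain ⟨E1, hE1⟩ : ∃ E1 : ℝ, E1 = Real.exp (L - 2 * u) := ⟨_, rfl⟩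
  have hE1pos : 0 < E1 := by rw [hE1]; exact Real.exp_pos _
  have hTX : TX X = E1 := by
    unfold TX
    rw [← hL, ← hu, hE1, hXe, ← Real.exp_add]
    congr 1
  obtain ⟨D0, hD0⟩ : ∃ D0 : ℕ, D0 = ⌊(X : ℝ) ^ ((9 : ℝ) / 20)⌋₊ := ⟨_, rfl⟩
  have hX920 : (X : ℝ) ^ ((9 : ℝ) / 20) = Real.exp (9 / 20 * L) := by
    rw [hXe, ← Real.exp_mul]
    congr 1
    ring
  have hD0e : (D0 : ℝ) ≤ Real.exp (9 / 20 * L) := by
    rw [hD0, ← hX920]
    exact Nat.floor_le (by positivity)
  have hD01 : 1 ≤ D0 := by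
    rw [hD0]
    apply Nat.le_floor
    rw [hX920]
    push_cast
    exact Real.one_le_exp (by positivity)
  obtain ⟨W, hW⟩ : ∃ W : ℝ, W = (X : ℝ) ^ ((1 : ℝ) / 100) * Real.sqrt x := ⟨_, rfl⟩
  have hW0 : 0 ≤ W := by rw [hW]; positivity
  have hWe : W ≤ Real.exp (L / 100 + (1 + u + L) / 2) := by
    rw [hW, Real.exp_add]
    have e1 : (X : ℝ) ^ ((1 : ℝ) / 100) = Real.exp (L / 100) := by
      rw [hXe, ← Real.exp_mul]
      congr 1
      ring
    have e2 : Real.sqrt x ≤ Real.exp ((1 + u + L) / 2) := by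
      rw [Real.exp_half]
      exact Real.sqrt_le_sqrt hxe
    rw [e1]
    gcongr
  have hD0W : D0 * W ≤ E1 := by
    calc (D0 : ℝ) * W ≤ Real.exp (9 / 20 * L) * Real.exp (L / 100 + (1 + u + L) / 2) := by
          gcongr
      _ ≤ E1 := by
          rw [hE1, ← Real.exp_add]
          apply Real.exp_le_exp.2
          linarith
  have hD01r : (1 : ℝ) ≤ D0 := by exact_mod_cast hD01
  have hWE : W ≤ E1 := (le_mul_of_one_le_left hW0 hD01r).trans hD0W
  have hD0D0 : (D0 : ℝ) * D0 ≤ E1 := by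
    calc (D0 : ℝ) * D0 ≤ Real.exp (9 / 20 * L) * Real.exp (9 / 20 * L) := by gcongr
      _ ≤ E1 := by
          rw [hE1, ← Real.exp_add]
          apply Real.exp_le_exp.2
          linarith
  have hxy : x * Real.exp (-yX X) ≤ E1 := by
    calc x * Real.exp (-yX X) ≤ Real.exp (1 + u + L) * Real.exp (-yX X) := by gcongr
      _ ≤ E1 := by
          rw [hE1, ← Real.exp_add, hyu]
          apply Real.exp_le_exp.2
          linarith only [hu2, hu36]
  have hlowE : Real.exp (2 * yX X) * (2 * (x * Real.exp (-(Real.log x) ^ ((1 : ℝ) / 80)))) ≤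
      E1 := by
    have e1 : L ^ ((1 : ℝ) / 80) ≤ (Real.log x) ^ ((1 : ℝ) / 80) :=
      Real.rpow_le_rpow hL0.le hLx (by norm_num)
    have e2 : Real.exp (-(Real.log x) ^ ((1 : ℝ) / 80)) ≤ Real.exp (-(6 * u ^ 2)) :=
      Real.exp_le_exp.2 (by linarith)
    have h7 : (2 : ℝ) ≤ Real.exp 1 := by
      have := Real.add_one_le_exp (1 : ℝ)
      linarith
    calc _ ≤ Real.exp (2 * u ^ 2) * (Real.exp 1 * (Real.exp (1 + u + L) *
          Real.exp (-(6 * u ^ 2)))) := by
          rw [hyu]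
          gcongr
      _ ≤ E1 := by
          rw [hE1, ← Real.exp_add, ← Real.exp_add, ← Real.exp_add]
          apply Real.exp_le_exp.2
          linarith only [hu2, hu36]
  have hy1 : 1 ≤ yX X := by rw [hyu]; exact one_le_pow₀ hu1
  have hyx : yX X ≤ (Real.log x) ^ ((1 : ℝ) / 100) := by
    unfold yX
    rw [← hL]
    exact Real.rpow_le_rpow hL0.le hLx (by norm_num)
  -- one modulus
  have hA : ∀ D l : ℕ, 1 ≤ D → l.Coprime D → (D : ℝ) ≤ x → ¬ p0 ∣ D →
      ‖cls (Px x) (4 * ⌊x⌋₊) D l - Mn x D‖ ≤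
        2 * (1 / (D.totient : ℝ) * E1) +
          ‖del (fun c => QX X < c) (Fx X x) (4 * ⌊x⌋₊) D l‖ + W := by
    intro D l hD hl hDx hpD
    have r1 := hXR X x D l hXR' hXx hxX2 hD hl
    have r2 := hxL x (yX X) D l (hXL'.trans hXx) hy1 hyx hD hDx (by
      intro q1 _ χ1 hq1D hq12 hlq1 hprim
      exact hNex q1 χ1 hq12 hlq1 (fun h => hpD (h.trans hq1D)) hprim)
    have hφ : (0 : ℝ) ≤ 1 / (D.totient : ℝ) := by positivity
    have r3 : ‖del (fun c => 1 < c ∧ c ≤ QX X) (Px x) (4 * ⌊x⌋₊) D l‖ ≤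
        1 / (D.totient : ℝ) * E1 := by
      refine le_trans r2 ?_
      exact mul_le_mul_of_nonneg_left hlowE hφ
    have r4 : x / (D.totient : ℝ) * Real.exp (-yX X) ≤ 1 / (D.totient : ℝ) * E1 := by
      have : x / (D.totient : ℝ) * Real.exp (-yX X) =
          1 / (D.totient : ℝ) * (x * Real.exp (-yX X)) := by ring
      rw [this]
      exact mul_le_mul_of_nonneg_left hxy hφ
    rw [← hW] at r1
    linarith
  -- the high part for q
  have hHq : ‖del (fun c => QX X < c) (Fx X x) (4 * ⌊x⌋₊) q 1‖ ≤ E1 := by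
    have r1 := hXH X q (fun _ => 1) hXH' hq hlq
    rw [← hx, hTX, ← hD0] at r1
    refine le_trans ?_ r1
    have r2 := Finset.single_le_sum (f := fun d =>
      ‖del (fun c => QX X < c) (Fx X x) (4 * ⌊x⌋₊) (q * d) 1‖)
      (fun d _ => norm_nonneg _) (Finset.mem_Icc.2 ⟨le_refl 1, hD01⟩)
    simpa using r2
  -- the residues
  have hres : ∀ d : ℕ, ∃ l : ℕ, d.Coprime (q * p0) → l ≡ 1 [MOD q] ∧ l ≡ a d [MOD d] := by
    intro d
    by_cases hd : d.Coprime (q * p0)
    · have hc : q.Coprime d := (Nat.Coprime.coprime_mul_right_right hd).symm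
      exact ⟨(Nat.chineseRemainder hc 1 (a d)).1, fun _ => (Nat.chineseRemainder hc 1 (a d)).2⟩
    · exact ⟨1, fun h => absurd h hd⟩
  choose l hl using hres
  have hHqd := hXH X q l hXH' hq hlq
  rw [← hx, hTX, ← hD0] at hHqd
  rw [← hD0]
  -- one d
  have hone : ∀ d ∈ (Icc 1 D0).filter (fun d => d.Coprime (q * p0)),
      |npa X q d (a d) - npq X q / (d.totient : ℝ)| ≤
        6 * (1 / (d.totient : ℝ) * E1) +
          ‖del (fun c => QX X < c) (Fx X x) (4 * ⌊x⌋₊) (q * d) (l d)‖ + W + D0 := by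
    intro d hd
    simp only [Finset.mem_filter, Finset.mem_Icc] at hd
    obtain ⟨⟨hd1, hd2⟩, hd3⟩ := hd
    have hc : q.Coprime d := (Nat.Coprime.coprime_mul_right_right hd3).symm
    have hpd : ¬ p0 ∣ d := by
      have := Nat.Coprime.coprime_mul_left_right hd3
      exact (Nat.Prime.coprime_iff_not_dvd hp0).1 this.symm
    have hpqd : ¬ p0 ∣ q * d := fun h => by
      rcases (Nat.Prime.dvd_mul hp0).1 h with h | h
      · exact hpq h
      · exact hpd h
    obtain ⟨hl1, hl2⟩ := hl d hd3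
    have hlc1 : (l d).Coprime q := by
      have := hl1.gcd_eq
      rw [Nat.gcd_one_left] at this
      exact this
    have hlc2 : (l d).Coprime d := by
      have := hl2.gcd_eq
      rw [ha d] at this
      exact this
    have hlc : (l d).Coprime (q * d) := Nat.Coprime.mul_right hlc1 hlc2
    obtain ⟨t1, t2⟩ := h4 X q d (a d) (l d) hq hd1 hc hl1 hl2
    rw [← hx] at t1 t2
    have hdX : (d : ℝ) ≤ X := by
      have e1 : (d : ℝ) ≤ D0 := by exact_mod_cast hd2
      refine e1.trans (hD0e.trans ?_)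
      rw [hXe]
      apply Real.exp_le_exp.2
      linarith
    have hqdx : ((q * d : ℕ) : ℝ) ≤ x := by
      rw [hx']
      push_cast
      have := mul_le_mul_of_nonneg_left hdX (by linarith : (0 : ℝ) ≤ q)
      linarith
    have hqx : ((q : ℕ) : ℝ) ≤ x := by
      have e0 : (q : ℝ) ≤ q * X := le_mul_of_one_le_right (by linarith only [hqr1]) hX1
      rw [hx']
      linarith only [e0]
    have A1 := hA (q * d) (l d) (Nat.mul_pos hq hd1) hlc hqdx hpqd
    have A2 := hA q 1 hq (Nat.gcd_one_left q) hqx hpq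
    have A3 := bqs_C x q d hq hd1 hc
    rw [t1] at A1
    rw [t2] at A2
    have hφd : (1 : ℝ) ≤ (d.totient : ℝ) := by exact_mod_cast Nat.totient_pos.mpr hd1
    have hφq : (1 : ℝ) ≤ (q.totient : ℝ) := by exact_mod_cast Nat.totient_pos.mpr hq
    have e1 : |npa X q d (a d) - npq X q / (d.totient : ℝ)| =
        ‖((npa X q d (a d) : ℂ) - Mn x (q * d)) - (1 / (d.totient : ℂ)) *
          ((npq X q : ℂ) - Mn x q) + (Mn x (q * d) - (1 / (d.totient : ℂ)) * Mn x q)‖ := by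
      have e2 : ((npa X q d (a d) : ℂ) - Mn x (q * d)) - (1 / (d.totient : ℂ)) *
          ((npq X q : ℂ) - Mn x q) + (Mn x (q * d) - (1 / (d.totient : ℂ)) * Mn x q) =
          ((npa X q d (a d) - npq X q / (d.totient : ℝ) : ℝ) : ℂ) := by
        push_cast
        ring
      rw [e2, Complex.norm_real, Real.norm_eq_abs]
    rw [e1]
    have hφd' : (0 : ℝ) ≤ 1 / (d.totient : ℝ) := by positivity
    have n1 : ‖(1 / (d.totient : ℂ)) * ((npq X q : ℂ) - Mn x q)‖ ≤
        1 / (d.totient : ℝ) * (4 * E1) := by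
      rw [norm_mul, norm_div, norm_one, Complex.norm_natCast]
      refine mul_le_mul_of_nonneg_left ?_ hφd'
      have e3 : 1 / (q.totient : ℝ) * E1 ≤ E1 := by
        have : 1 / (q.totient : ℝ) ≤ 1 := by
          rw [div_le_one (by positivity)]
          exact hφq
        exact mul_le_of_le_one_left hE1pos.le this
      linarith
    have n2 : 1 / ((q * d).totient : ℝ) * E1 ≤ 1 / (d.totient : ℝ) * E1 := by
      refine mul_le_mul_of_nonneg_right ?_ hE1pos.le
      rw [Nat.totient_mul hc]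
      push_cast
      apply one_div_le_one_div_of_le (by positivity)
      exact le_mul_of_one_le_left (by positivity) hφq
    have n3 : (d : ℝ) ≤ D0 := by exact_mod_cast hd2
    have n4 := norm_add_le (((npa X q d (a d) : ℂ) - Mn x (q * d)) - (1 / (d.totient : ℂ)) *
          ((npq X q : ℂ) - Mn x q)) (Mn x (q * d) - (1 / (d.totient : ℂ)) * Mn x q)
    have n5 := norm_sub_le ((npa X q d (a d) : ℂ) - Mn x (q * d)) ((1 / (d.totient : ℂ)) *
          ((npq X q : ℂ) - Mn x q))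
    linarith
  refine (Finset.sum_le_sum hone).trans ?_
  have hsub : ∑ d ∈ (Icc 1 D0).filter (fun d => d.Coprime (q * p0)),
      (6 * (1 / (d.totient : ℝ) * E1) +
          ‖del (fun c => QX X < c) (Fx X x) (4 * ⌊x⌋₊) (q * d) (l d)‖ + W + D0) ≤
      ∑ d ∈ Icc 1 D0,
      (6 * (1 / (d.totient : ℝ) * E1) +
          ‖del (fun c => QX X < c) (Fx X x) (4 * ⌊x⌋₊) (q * d) (l d)‖ + W + D0) :=
    Finset.sum_le_sum_of_subset_of_nonneg (Finset.filter_subset _ _)
      (fun d _ _ => by positivity)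
  refine hsub.trans ?_
  rw [Finset.sum_add_distrib, Finset.sum_add_distrib, Finset.sum_add_distrib, ← Finset.mul_sum,
    ← Finset.sum_mul, Finset.sum_const, Finset.sum_const, Nat.card_Icc, nsmul_eq_mul,
    nsmul_eq_mul]
  have hD0c : ((D0 + 1 - 1 : ℕ) : ℝ) = D0 := by simp
  rw [hD0c]
  have htot := h5.1 D0 hD01
  have hlogD : Real.log D0 ≤ L := by
    have e1 : (D0 : ℝ) ≤ X := by
      refine hD0e.trans ?_
      rw [hXe]
      apply Real.exp_le_exp.2
      linarith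
    rw [hL]
    exact Real.log_le_log (by linarith) e1
  have hlogD0 : 0 ≤ Real.log D0 := Real.log_nonneg hD01r
  have htot2 : ∑ d ∈ Icc 1 D0, 1 / (d.totient : ℝ) ≤ (1 + L) ^ 2 := by
    refine htot.trans ?_
    gcongr
  have hgoal : (X : ℝ) * Real.exp (-(Real.log X) ^ ((1 : ℝ) / 200)) = Real.exp u * E1 := by
    rw [← hL, ← hu, hXe, hE1, ← Real.exp_add, ← Real.exp_add]
    congr 1
    ring
  rw [hgoal]
  have h1L : (1 : ℝ) ≤ (1 + L) ^ 2 := one_le_pow₀ (by linarith)
  have s1 : (∑ d ∈ Icc 1 D0, 1 / (d.totient : ℝ)) * E1 ≤ (1 + L) ^ 2 * E1 :=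
    mul_le_mul_of_nonneg_right htot2 hE1pos.le
  have s2 : E1 ≤ (1 + L) ^ 2 * E1 := le_mul_of_one_le_left hE1pos.le h1L
  calc _ ≤ 6 * ((1 + L) ^ 2 * E1) + E1 + E1 + E1 := by
        linarith only [s1, hHqd, hD0W, hD0D0]
    _ ≤ 9 * (1 + L) ^ 2 * E1 := by linarith only [s2]
    _ ≤ Real.exp u * E1 := mul_le_mul_of_nonneg_right hfin hE1pos.le

end Pool.Agent.Lib.MP_9f2731_nt.CG.Bq
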