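import Pool.Agent.Lib.BV.All
import Pool.Agent.Lib.BV.Uni
import Pool.Agent.Lib.BV.Smg
import Pool.Agent.Lib.BV.Tys
import Pool.Agent.Lib.MP_9f2731_nt.QL.Pw.All
import Pool.Agent.Lib.MP_9f2731_nt.CG.Bq.BqA
import Pool.Agent.Lib.MP_9f2731_nt.CG.Bq.BqR
import Pool.Agent.Lib.MP_9f2731_nt.CG.Bq.BqL
import Pool.Agent.Lib.MP_9f2731_nt.CG.Bq.BqH
import Pool.Agent.Lib.MP_9f2731_nt.CG.Bq.BqS
import Pool.Agent.Lib.MP_9f2731_nt.CG.Bq.BqT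
import Pool.Agent.Lib.MP_9f2731_nt.CG.Bq.BqF

/-!
MP_9f2731_nt, THEOREM CG (helper92), chapter Bq: composition of the modules.
-/

namespace Pool.Agent.Lib.MP_9f2731_nt.CG.Bq

open Pool.Agent.Lib.BV
open Pool.Agent.Lib.MP_9f2731_nt.GP.Ap
open Pool.Agent.Lib.MP_9f2731_nt.QL
open Pool.Agent.Lib.MP_9f2731_nt.QL.Pw
open Pool.Agent.Lib.MP_9f2731_nt.CG

theorem aUni : UniStmt := tUni aSpl aCnd
theorem aSmg : SmgStmt := tSmg aSpl aCnd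
theorem aTys : TysStmt := tTys aTyj aGri
theorem aBqR : BqRStmt := pBqR (pBqA aSpl aUni aSmg aFl aGys)
theorem aExG : ExGStmt := pExG (pPgA pPgP (pPgE pPgP) aSeE aChb aLnk) aSie aRlC
theorem aSwQ : SwQStmt := by
  have bLoG := pLoG aLo1 aLo2 aTrl aLnk
  have bFkG := pFkG aSeE aChb bLoG aReE
  have bSwG := pSwG bFkG aSmb aPer aUnE aPaE aPps
  exact pSwQ bSwG
theorem aApG : ApGStmt := pApG aSwQ aPnt
theorem aBqL : BqLStmt := pBqL aSwQ aCnd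

theorem bqAll : BvqStmt :=
  pBqF aExG aApG (pBqS aBqR aBqL (pBqH aTys) pBqT aTot)

end Pool.Agent.Lib.MP_9f2731_nt.CG.Bq
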