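import Pool.Agent.Lib.MP_9f2731_nt.CG.Bq.Spec

namespace Pool.Agent.Lib.MP_9f2731_nt.CG.Bq

open Finset Pool.Agent.Lib.BV
open Pool.Agent.Lib.MP_9f2731_nt.QL Pool.Agent.Lib.MP_9f2731_nt.QL.Pw
open Pool.Agent.Lib.MP_9f2731_nt.CG

private lemma bqt_key (X q D l : ℕ) (P : ℕ → Prop) [DecidablePred P] (hq : 1 ≤ q)
    (h : ∀ b, 1 ≤ b → b ≤ X → ((q * b + 1) ≡ l [MOD D] ↔ P b))
    (h' : ∀ n, n ≡ l [MOD D] → n ≡ 1 [MOD q]) :
    cls (Px ((q * X + 1 : ℕ) : ℝ)) (4 * ⌊((q * X + 1 : ℕ) : ℝ)⌋₊) D l =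
      ((((Icc 1 X).filter (fun b => (q * b + 1).Prime ∧ P b)).card : ℝ) : ℂ) := by
  have e1 : cls (Px ((q * X + 1 : ℕ) : ℝ)) (4 * ⌊((q * X + 1 : ℕ) : ℝ)⌋₊) D l =
      ((((Icc 1 (4 * (q * X + 1))).filter (fun n => n ≡ l [MOD D])).filter
        (fun n => n.Prime ∧ n ≤ q * X + 1)).card : ℂ) := by
    rw [Nat.floor_natCast]
    unfold cls
    rw [Finset.card_filter, Nat.cast_sum]
    refine Finset.sum_congr rfl (fun n _ => ?_)
    unfold Px PY
    by_cases hn : n.Prime ∧ n ≤ q * X + 1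
    · have hn' : n.Prime ∧ (n : ℝ) ≤ ((q * X + 1 : ℕ) : ℝ) := ⟨hn.1, by exact_mod_cast hn.2⟩
      rw [if_pos hn', if_pos hn]
      simp
    · have hn' : ¬ (n.Prime ∧ (n : ℝ) ≤ ((q * X + 1 : ℕ) : ℝ)) := by
        intro hh
        exact hn ⟨hh.1, by exact_mod_cast hh.2⟩
      rw [if_neg hn', if_neg hn]
      simp
  rw [e1]
  have e2 : (((Icc 1 (4 * (q * X + 1))).filter (fun n => n ≡ l [MOD D])).filter
        (fun n => n.Prime ∧ n ≤ q * X + 1)).card =
      ((Icc 1 X).filter (fun b => (q * b + 1).Prime ∧ P b)).card := by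
    symm
    refine Finset.card_bij (fun b _ => q * b + 1) ?_ ?_ ?_
    · intro b hb
      simp only [Finset.mem_filter, Finset.mem_Icc] at hb ⊢
      obtain ⟨⟨hb1, hb2⟩, hb3, hb4⟩ := hb
      have hle : q * b + 1 ≤ q * X + 1 := by
        have := Nat.mul_le_mul_left q hb2
        omega
      exact ⟨⟨⟨by omega, by omega⟩, (h b hb1 hb2).2 hb4⟩, hb3, hle⟩
    · intro b _ b' _ hbb
      have h2 : q * b = q * b' := by omega
      exact Nat.eq_of_mul_eq_mul_left (by omega) h2
    · intro n hn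
      simp only [Finset.mem_filter, Finset.mem_Icc] at hn
      obtain ⟨⟨⟨hn1, hn2⟩, hn3⟩, hn4, hn5⟩ := hn
      have h1 := h' n hn3
      have hdvd : q ∣ n - 1 := (Nat.modEq_iff_dvd' hn1).1 h1.symm
      obtain ⟨b, hb⟩ := hdvd
      have hnb : n = q * b + 1 := by omega
      have hb1 : 1 ≤ b := by
        rcases Nat.eq_zero_or_pos b with h0 | h0
        · subst h0
          have := hn4.two_le
          simp at hnb
          omega
        · exact h0
      have hbX : b ≤ X := by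
        have h3 : q * b ≤ q * X := by omega
        exact Nat.le_of_mul_le_mul_left h3 (by omega)
      refine ⟨b, ?_, hnb.symm⟩
      simp only [Finset.mem_filter, Finset.mem_Icc]
      refine ⟨⟨hb1, hbX⟩, hnb ▸ hn4, (h b hb1 hbX).1 (hnb ▸ hn3)⟩
  rw [e2]
  push_cast
  rfl

theorem pBqT : BqTStmt := by
  intro X q d a l hq hd hcop h1 h2
  constructor
  · unfold npa
    have hk := bqt_key X q (q * d) l (fun b => q * b + 1 ≡ a [MOD d]) hq ?_ ?_
    · rw [hk]
    · intro b hb1 hb2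
      rw [← Nat.modEq_and_modEq_iff_modEq_mul hcop]
      constructor
      · intro hh
        exact hh.2.trans h2
      · intro hh
        refine ⟨?_, hh.trans h2.symm⟩
        have : q * b + 1 ≡ 1 [MOD q] := by
          unfold Nat.ModEq
          simp [Nat.add_mod]
        exact this.trans h1.symm
    · intro n hn
      exact (hn.of_mul_right d).trans h1
  · unfold npq
    have hk := bqt_key X q q 1 (fun _ => True) hq ?_ ?_
    · rw [hk]
      simp
    · intro b hb1 hb2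
      simp only [iff_true]
      unfold Nat.ModEq
      simp [Nat.add_mod]
    · intro n hn
      exact hn

end Pool.Agent.Lib.MP_9f2731_nt.CG.Bq
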