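import Pool.Agent.Lib.BV.SpecD
import Pool.Agent.Lib.MP_9f2731_nt.QL.Pw.Spec
import Pool.Agent.Lib.MP_9f2731_nt.CG.Defs

/-!
MP_9f2731_nt, THEOREM CG (helper92), chapter Bq: the Bombieri-Vinogradov theorem for the multiples of q, for all
q ≤ exp((log X)^(1/200)) which are not divisible by one prime p0. Result: BvqStmt.
Plan: x = q X + 1, moduli q d, d ≤ X^(9/20). Characters of conductor ≤ Q = exp((log X)^(1/100)): chapter QL/Pw (SwQ), all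
conductors not divisible by p0. Characters of conductor > Q: decomposition of the primes (Lib/BV) into rough numbers, a
bilinear part (mean value theorem Tys for all moduli ≤ q X^(9/20)) and a small error; the losses Q^2 are compensated by
b = 4 (log X)^(1/100), η = exp(-4 (log X)^(1/100)).

RULES. Module X: file Pool/Agent/Lib/MP_9f2731_nt/CG/Bq/X.lean, first line `import
Pool.Agent.Lib.MP_9f2731_nt.CG.Bq.Spec`, then `namespace Pool.Agent.Lib.MP_9f2731_nt.CG.Bq`, `open Finset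
Pool.Agent.Lib.BV`, `open Pool.Agent.Lib.MP_9f2731_nt.QL Pool.Agent.Lib.MP_9f2731_nt.QL.Pw
Pool.Agent.Lib.MP_9f2731_nt.CG`, final theorem `theorem pX : XStmt`; the statements listed under Uses are HYPOTHESES of pX,
in this order (Spl, Uni, Smg, Cnd, Fl, Gys, Tys, Tot are the statements of Lib/BV: BV.SplStmt and so on; SwQ, ExG, ApG those
of QL/Pw). All modules are independent.
-/

namespace Pool.Agent.Lib.MP_9f2731_nt.CG.Bq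

open Finset Pool.Agent.Lib.BV
open Pool.Agent.Lib.MP_9f2731_nt.QL
open Pool.Agent.Lib.MP_9f2731_nt.QL.Pw
open Pool.Agent.Lib.MP_9f2731_nt.CG

/-! ### Parameters -/

noncomputable def yX (X : ℕ) : ℝ := (Real.log X) ^ ((1 : ℝ) / 100)
noncomputable def QX (X : ℕ) : ℕ := ⌊Real.exp (yX X)⌋₊
noncomputable def zX (X : ℕ) : ℕ := ⌊Real.exp (Real.sqrt (Real.log X))⌋₊
noncomputable def bX (X : ℕ) : ℕ := ⌈4 * yX X⌉₊
noncomputable def eX (X : ℕ) : ℝ := Real.exp (-(4 * yX X))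
noncomputable def KX (X : ℕ) : ℕ := ⌈2 * Real.log X⌉₊
noncomputable def JX (X : ℕ) : ℕ := ⌈4 * Real.log X⌉₊

/-- the primes up to x -/
noncomputable def Px (x : ℝ) (n : ℕ) : ℂ := (PY x n : ℂ)

/-- the bilinear part -/
noncomputable def Fx (X : ℕ) (x : ℝ) (n : ℕ) : ℂ := (FY (eX X) (zX X) (KX X) (JX X) x n : ℂ)

/-- the mean over the reduced classes modulo D -/
noncomputable def Mn (x : ℝ) (D : ℕ) : ℂ :=
  (1 / (D.totient : ℂ)) * ∑ n ∈ (Icc 1 (4 * ⌊x⌋₊)).filter (fun n => n.Coprime D), Px x n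

/-- the target -/
noncomputable def TX (X : ℕ) : ℝ := X * Real.exp (-(2 * (Real.log X) ^ ((1 : ℝ) / 200)))

/-! ### One modulus -/

/-- Module BqA (150 lines; pointwise). Uses: Spl, Uni, Smg, Fl, Gys. Proof. N = 4⌊x⌋. PY = RY - FY + GY pointwise (GY is defined so). Spl for PY: cls PY - mean = del(1 < c ≤ Q) PY + del(Q < c) PY, and del is linear in f, so ‖del(Q<c) PY‖ ≤ ‖del(Q<c) RY‖ + ‖del(Q<c) FY‖ + ‖del(Q<c) GY‖.
(1) RY: the class sums of RY z x are the sums of rr z n over Ioc 0 ⌊x⌋, so Fl (with N = 0, N2 = ⌊x⌋) bounds their differences by E = C (x/φ(D) exp(-b)/log z) + z^(16 b); Uni gives (1 + Q^2) E. (2) GY: Gys for (D, l) and for (1, 0) and Smg: ≤ E' + (1 + Q^2) G/φ(D), E' ≤ (z + 1) + x/(z φ(D)) + √x + C (4ηx + 1)/(φ(D) log z) + z^16 (D ≥ φ(D) ≥ 1),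
G = (z + 1) + x/z + √x + C (4ηx + 1)/log z + z^16. z + 1 + z^16 ≤ 3 z^(16 b). Total as stated (C = the maximum of the constants). -/
def BqAStmt : Prop :=
  ∃ C : ℝ, 0 < C ∧ ∀ (x η : ℝ) (z b K J Q D l : ℕ), 4 ≤ x → 0 < η → η ≤ 1 / 2 → 2 ≤ z → 1 ≤ b →
    x ≤ (2 : ℝ) ^ J → x ≤ ((z : ℝ) * 2 ^ K) ^ 2 → 1 ≤ D → l.Coprime D → 1 ≤ Q →
    ‖cls (Px x) (4 * ⌊x⌋₊) D l - Mn x D‖ ≤
      ‖del (fun c => 1 < c ∧ c ≤ Q) (Px x) (4 * ⌊x⌋₊) D l‖ +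
      ‖del (fun c => Q < c) (fun n => (FY η z K J x n : ℂ)) (4 * ⌊x⌋₊) D l‖ +
      (2 + (Q : ℝ) ^ 2) * (Real.sqrt x + 4 * (z : ℝ) ^ (16 * b) +
        x / (D.totient : ℝ) * (1 / z + C * ((5 * η + 1 / x + Real.exp (-(b : ℝ))) / Real.log z)))

/-- Module BqR (120 lines; the parameters). Uses: BqA. Proof. BqA with η = eX X, z = zX X, b = bX X, K = KX X, J = JX X, Q = QX X. y = yX X = (log X)^(1/100), X large, X ≤ x ≤ X^2. 2^J ≥ 2^(4 log X) ≥ X^2, 2^K ≥ 2^(2 log X) ≥ X (log 2 ≥ 1/2), so (z 2^K)^2 ≥ X^2. Q^2 ≤ e^(2y) ≤ X^(1/200)/6, z^(16 b) ≤ exp(16 (4y+1) (log X)^(1/2)) ≤ √X/4 ≤ √x/4, so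
(2 + Q^2)(√x + 4 z^(16b)) ≤ X^(1/100) √x. z ≥ exp(√(log X))/2, log z ≥ 1: (2 + Q^2)(1/z + C (5η + 1/x + e^(-b))/log z) ≤ 3 e^(2y) (2 exp(-√(log X)) + C (6 e^(-4y) + 1/X)) ≤ e^(-y) for X large (y = (log X)^(1/100) → ∞, y/√(log X) → 0). -/
def BqRStmt : Prop :=
  ∃ X0 : ℝ, ∀ (X : ℕ) (x : ℝ) (D l : ℕ), X0 ≤ X → (X : ℝ) ≤ x → x ≤ (X : ℝ) ^ 2 → 1 ≤ D → l.Coprime D →
    ‖cls (Px x) (4 * ⌊x⌋₊) D l - Mn x D‖ ≤
      ‖del (fun c => 1 < c ∧ c ≤ QX X) (Px x) (4 * ⌊x⌋₊) D l‖ +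
      ‖del (fun c => QX X < c) (Fx X x) (4 * ⌊x⌋₊) D l‖ +
      (X : ℝ) ^ ((1 : ℝ) / 100) * Real.sqrt x + x / (D.totient : ℝ) * Real.exp (-yX X)

/-- Module BqL (120 lines; low conductors). Uses: SwQ, Cnd. Proof. Let χ mod D have conductor c with 1 < c ≤ e^y, and let χ1 mod c be its primitive character: c ∣ D, 2 ≤ c, log c ≤ y, so by the hypothesis and SwQ |∑_{p ≤ x} χ1(p)| ≤ x exp(-(log x)^(1/80)). cs (Px x) (4⌊x⌋) 1 χ = ∑_{p ≤ x} χ(p), and χ(p) = χ1(p) for p ∤ D, χ(p) = 0 for p ∣ D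
(primitiveCharacter_apply_of_isCoprime, changeLevel_eq_cast_of_dvd; compare Lib/BV/Inj.lean and QL/Pw/ApG.lean), so it is ≤ x exp(-(log x)^(1/80)) + (number of prime factors of D) ≤ 2 x exp(-(log x)^(1/80)) for x large (the number is ≤ 2 log x). |χ(l⁻¹)| ≤ 1, and there are at most ⌊e^y⌋^2 ≤ e^(2y) such χ (Cnd). -/
def BqLStmt : Prop :=
  ∀ c3 : ℝ, 0 < c3 → ∃ x0 : ℝ, ∀ (x y : ℝ) (D l : ℕ), x0 ≤ x → 1 ≤ y → y ≤ (Real.log x) ^ ((1 : ℝ) / 100) →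
    1 ≤ D → (D : ℝ) ≤ x →
    (∀ (q1 : ℕ) [NeZero q1] (χ1 : DirichletCharacter ℂ q1), q1 ∣ D → 2 ≤ q1 → Real.log q1 ≤ y →
      χ1.IsPrimitive → Nex c3 y χ1) →
    ‖del (fun c => 1 < c ∧ c ≤ ⌊Real.exp y⌋₊) (Px x) (4 * ⌊x⌋₊) D l‖ ≤
      1 / (D.totient : ℝ) * (Real.exp (2 * y) * (2 * (x * Real.exp (-(Real.log x) ^ ((1 : ℝ) / 80)))))

/-- Module BqH (150 lines; high conductors). Uses: Tys. Proof. x = q X + 1, D0 = ⌊X^(9/20)⌋, D = q D0, u = (log X)^(1/200), q ≤ e^u, y = yX X = u^2. The numbers q d, d ≤ D0, are different elements of Icc 1 D, so the sum is at most the sum over all moduli D' ≤ D with l' D' = l (D'/q): Tys (y d = x) bounds it by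
C (1 + 4y)(K √x/log z)((1 + log D)^2 (√x/Q + √(x/z)(1 + log D)) + D). X large: x ≤ 2 q X ≤ X^2, K ≤ 2 log X + 1, log z ≥ 1, Q ≥ e^y/2, z ≥ exp(√(log X))/2, 1 + log D ≤ 3 log X: the first two parts are ≤ C' (log X)^6 q X (e^(-y) + exp(-√(log X)/2)) ≤ C'' (log X)^6 X e^(u - u^2), the last one is
≤ C' (log X)^2 √(2 q X) q X^(9/20) ≤ X^(24/25); both are ≤ X e^(-2u)/2 for X large. -/
def BqHStmt : Prop :=
  ∃ X0 : ℝ, ∀ (X q : ℕ) (l : ℕ → ℕ), X0 ≤ X → 1 ≤ q → Real.log q ≤ (Real.log X) ^ ((1 : ℝ) / 200) →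
    ∑ d ∈ Icc 1 ⌊(X : ℝ) ^ ((9 : ℝ) / 20)⌋₊,
      ‖del (fun c => QX X < c) (Fx X ((q * X + 1 : ℕ) : ℝ)) (4 * ⌊((q * X + 1 : ℕ) : ℝ)⌋₊) (q * d) (l d)‖ ≤ TX X

/-- Module BqT (80 lines; translation). Uses: nothing. Proof. The primes p ≤ q X + 1 with p ≡ 1 mod q are the numbers q b + 1, 1 ≤ b ≤ X, which are prime (p ≥ 2 and p ≡ 1 mod q: p = q b + 1 with b ≥ 1); cls (Px x) (4⌊x⌋) D l counts the primes p ≤ x, p ≡ l mod D (⌊x⌋ = q X + 1). p ≡ l mod q d iff p ≡ 1 mod q and p ≡ a mod d (Nat.modEq_and_modEq_iff_modEq_mul). -/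
def BqTStmt : Prop :=
  ∀ X q d a l : ℕ, 1 ≤ q → 1 ≤ d → q.Coprime d → l ≡ 1 [MOD q] → l ≡ a [MOD d] →
    cls (Px ((q * X + 1 : ℕ) : ℝ)) (4 * ⌊((q * X + 1 : ℕ) : ℝ)⌋₊) (q * d) l = (npa X q d a : ℂ) ∧
    cls (Px ((q * X + 1 : ℕ) : ℝ)) (4 * ⌊((q * X + 1 : ℕ) : ℝ)⌋₊) q 1 = (npq X q : ℂ)

/-- Module BqS (200 lines; the sum over d). Uses: BqR, BqL, BqH, BqT, Tot. Proof. x = q X + 1, u = (log X)^(1/200), q ≤ e^u, X ≤ x ≤ 2 q X ≤ X^2. For d in the sum: d is prime to q and p0, l(d) = the Chinese remainder of 1 mod q and a d mod d, coprime to q d; l = 1 for the modulus q. By BqT, φ(q d) = φ(q) φ(d):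
|npa - npq/φ(d)| ≤ ‖cls(qd) - Mn(qd)‖ + (1/φ(d)) ‖cls(q) - Mn(q)‖ + ‖Mn(qd) - (1/φ(d)) Mn(q)‖, and the last term is (1/φ(qd)) times the number of the primes p ≤ x dividing d but not q: ≤ 2 log X. BqR for the first two; BqL with y = yX X ≤ (log x)^(1/100) (p0 does not divide q d, so the conductors q1 ∣ q d are not divisible by p0):
low(D) ≤ (1/φ(D)) 2 x exp(2 u^2 - (log x)^(1/80)) ≤ (1/φ(D)) X e^(-2u) for X large ((log x)^(1/80) ≥ u^(5/2)). Sums over d ≤ X^(9/20): ∑ 1/φ(q d) ≤ ∑ 1/φ(d) ≤ (1 + log X)^2 (Tot). high: BqH (for q d with l(d); and for q: the term d = 1). X^(9/20) X^(1/100) √x ≤ X^(24/25) √(2q) ≤ X e^(-2u); x (1 + log X)^2 e^(-u^2) ≤ X e^(-2u);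
2 log X X^(9/20) ≤ X e^(-2u). Total ≤ 20 (1 + log X)^2 X e^(-2u) ≤ X e^(-u) for X large (log X = u^200). -/
def BqSStmt : Prop :=
  ∀ c3 : ℝ, 0 < c3 → ∃ X0 : ℝ, ∀ X q p0 : ℕ, X0 ≤ X → 1 ≤ q → p0.Prime → ¬ p0 ∣ q →
    Real.log q ≤ (Real.log X) ^ ((1 : ℝ) / 200) →
    (∀ (q1 : ℕ) [NeZero q1] (χ1 : DirichletCharacter ℂ q1), 2 ≤ q1 → Real.log q1 ≤ yX X → ¬ p0 ∣ q1 →
      χ1.IsPrimitive → Nex c3 (yX X) χ1) →
    ∀ a : ℕ → ℕ, (∀ d, (a d).Coprime d) →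
      ∑ d ∈ (Icc 1 ⌊(X : ℝ) ^ ((9 : ℝ) / 20)⌋₊).filter (fun d => d.Coprime (q * p0)),
        |npa X q d (a d) - npq X q / (d.totient : ℝ)| ≤
        X * Real.exp (-(Real.log X) ^ ((1 : ℝ) / 200))

/-- Module BqF (100 lines). Uses: ExG, ApG, BqS. Proof. ε1 = 1/200. c3 from ExG. Given w1: y0 from ExG; X large, y = yX X = (log X)^(1/100) ≥ max 1 y0, p0 from ExG for y. Let q ≥ 1, p0 ∤ q, log q ≤ (log X)^(1/200) ≤ y. Second part of BvOK: BqS. First part as in QL/Pw/ApW.lean: x = q X + 1, ApG for x, y (log x ≥ log X, so y ≤ (log x)^(1/100); a divisor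
q1 of q is not divisible by p0, log q1 ≤ y): the number of the primes p ≤ x, p ≡ 1 mod q is ≥ x/(2 φ(q) log x) ≥ q X/(4 φ(q) log X) (log x ≤ 2 log X), and it is npq X q. -/
def BqFStmt : Prop := BvqStmt

end Pool.Agent.Lib.MP_9f2731_nt.CG.Bq
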